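import Mathlib

/-!
# Chip firing on multigraphs: basic facts

Multigraphs with explicit edges, Laplacians, rank, gonality sequence.
-/

set_option autoImplicit false

namespace Pool.Agent.V11142.QB

open Finset

/-- A connected loopless multigraph with vertex set `V` and edge set `E`; the edge `e` joins
`fst e` and `snd e`. -/
structure MGraph (V E : Type) where
  fst : E → V
  snd : E → V
  loopless : ∀ e, fst e ≠ snd e
  connected : ∀ u v : V, Relation.ReflTransGen
    (fun a b => ∃ e, (fst e = a ∧ snd e = b) ∨ (fst e = b ∧ snd e = a)) u v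

namespace MGraph

variable {V E : Type} [Fintype V] [Fintype E] [DecidableEq V] (G : MGraph V E)

/-- The Laplacian: `lap f v` is the number of chips lost by `v` when every vertex `u` is fired
`f u` times. -/
def lap (f : V → ℤ) (v : V) : ℤ :=
  ∑ e, ((if G.fst e = v then f v - f (G.snd e) else 0) +
    (if G.snd e = v then f v - f (G.fst e) else 0))

/-- Linear equivalence of divisors. -/
def LinEquiv (D D' : V → ℤ) : Prop := ∃ f : V → ℤ, D - D' = G.lap f

/-- The Baker-Norine rank of `D` is at least `r`. -/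
def RankAtLeast (D : V → ℤ) (r : ℕ) : Prop :=
  ∀ F : V → ℤ, 0 ≤ F → ∑ v, F v = r → ∃ D' : V → ℤ, 0 ≤ D' ∧ G.LinEquiv (D - F) D'

/-- The Baker-Norine rank of `D` is `r` (for `r ≥ 0`). -/
def HasRank (D : V → ℤ) (r : ℕ) : Prop := G.RankAtLeast D r ∧ ¬ G.RankAtLeast D (r + 1)

/-- The `r`-th gonality: the least degree of a divisor of rank `r`. -/
noncomputable def gon (r : ℕ) : ℕ :=
  sInf {d : ℕ | ∃ D : V → ℤ, ∑ v, D v = d ∧ G.HasRank D r}

/-- `D` realises the `r`-th gonality. -/
def Realises (D : V → ℤ) (r : ℕ) : Prop := G.HasRank D r ∧ ∑ v, D v = G.gon r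

/-- Gonality-tight graphs. -/
def Tight : Prop := G.gon 2 = G.gon 1 + 1

/-- Quasi-banana graphs: gonality-tight, and for some vertex `v` the divisor with two chips on `v`
and one chip on every other vertex realises the second gonality. -/
def QuasiBanana : Prop :=
  G.Tight ∧ ∃ v : V, G.Realises (fun w => 1 + if w = v then 1 else 0) 2

/-! ### Laplacians of sets of edges -/

/-- The Laplacian of the subgraph with edge set `F`. -/
def lapOn (F : Finset E) (f : V → ℤ) (v : V) : ℤ :=
  ∑ e ∈ F, ((if G.fst e = v then f v - f (G.snd e) else 0) +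
    (if G.snd e = v then f v - f (G.fst e) else 0))

theorem lap_eq_lapOn (f : V → ℤ) (v : V) : G.lap f v = G.lapOn univ f v := rfl

theorem lapOn_add (F : Finset E) (f g : V → ℤ) (v : V) :
    G.lapOn F (f + g) v = G.lapOn F f v + G.lapOn F g v := by
  unfold lapOn
  rw [← sum_add_distrib]
  refine sum_congr rfl fun e _ => ?_
  simp only [Pi.add_apply]
  split_ifs <;> ring

theorem lapOn_sub (F : Finset E) (f g : V → ℤ) (v : V) :
    G.lapOn F (f - g) v = G.lapOn F f v - G.lapOn F g v := by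
  unfold lapOn
  rw [← sum_sub_distrib]
  refine sum_congr rfl fun e _ => ?_
  simp only [Pi.sub_apply]
  split_ifs <;> ring

theorem lapOn_neg (F : Finset E) (f : V → ℤ) (v : V) :
    G.lapOn F (-f) v = - G.lapOn F f v := by
  unfold lapOn
  rw [← sum_neg_distrib]
  refine sum_congr rfl fun e _ => ?_
  simp only [Pi.neg_apply]
  split_ifs <;> ring

theorem lapOn_zero (F : Finset E) (v : V) : G.lapOn F 0 v = 0 := by
  unfold lapOn
  refine sum_eq_zero fun e _ => ?_
  simp

theorem lapOn_shift (F : Finset E) (f : V → ℤ) (c : ℤ) (v : V) :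
    G.lapOn F (fun u => f u + c) v = G.lapOn F f v := by
  unfold lapOn
  refine sum_congr rfl fun e _ => ?_
  split_ifs <;> ring

/-- Green's formula. -/
theorem sum_mul_lapOn (F : Finset E) (f g : V → ℤ) :
    ∑ v, g v * G.lapOn F f v =
      ∑ e ∈ F, (g (G.fst e) - g (G.snd e)) * (f (G.fst e) - f (G.snd e)) := by
  unfold lapOn
  simp_rw [mul_sum]
  rw [sum_comm]
  refine sum_congr rfl fun e _ => ?_
  have h1 : ∀ v, g v * ((if G.fst e = v then f v - f (G.snd e) else 0) +
      (if G.snd e = v then f v - f (G.fst e) else 0)) =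
      (if G.fst e = v then g v * (f v - f (G.snd e)) else 0) +
      (if G.snd e = v then g v * (f v - f (G.fst e)) else 0) := by
    intro v
    split_ifs <;> ring
  simp_rw [h1]
  rw [sum_add_distrib]
  simp only [sum_ite_eq, mem_univ, if_true]
  ring

theorem sum_lapOn (F : Finset E) (f : V → ℤ) : ∑ v, G.lapOn F f v = 0 := by
  have h := G.sum_mul_lapOn F f (fun _ => 1)
  simp only [one_mul, sub_self, zero_mul, sum_const_zero] at h
  exact h

theorem sum_lap (f : V → ℤ) : ∑ v, G.lap f v = 0 := G.sum_lapOn univ f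

/-! ### Reaching a vertex -/

/-- The vertex `u` carries a chip in some effective divisor equivalent to `M` (in the subgraph
with edge set `F`). -/
def Cov (F : Finset E) (M : V → ℤ) (u : V) : Prop :=
  ∃ f : V → ℤ, (∀ p, 0 ≤ M p - G.lapOn F f p) ∧ 1 ≤ M u - G.lapOn F f u

theorem cov_of_le {F : Finset E} {M N : V → ℤ} {u : V} (h : G.Cov F M u) (hMN : ∀ p, M p ≤ N p) :
    G.Cov F N u := by
  obtain ⟨f, h1, h2⟩ := h
  exact ⟨f, fun p => by linarith [h1 p, hMN p], by linarith [hMN u]⟩

theorem cov_of_equiv {F : Finset E} {M N : V → ℤ} {u : V} (h : G.Cov F M u) (g : V → ℤ)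
    (hMN : ∀ p, M p ≤ N p - G.lapOn F g p) : G.Cov F N u := by
  obtain ⟨f, h1, h2⟩ := h
  refine ⟨f + g, fun p => ?_, ?_⟩
  · rw [lapOn_add]
    linarith [h1 p, hMN p]
  · rw [lapOn_add]
    linarith [hMN u]

theorem cov_self {F : Finset E} {M : V → ℤ} {u : V} (h : ∀ p, 0 ≤ M p) (hu : 1 ≤ M u) :
    G.Cov F M u := by
  refine ⟨0, fun p => ?_, ?_⟩
  · rw [lapOn_zero]
    linarith [h p]
  · rw [lapOn_zero]
    linarith

/-! ### Effective divisors of small degree -/

omit [DecidableEq V] [Fintype V] in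
theorem exists_pos_of_sum [Fintype V] {F : V → ℤ} {r : ℕ} (h : ∑ v, F v = ((r + 1 : ℕ) : ℤ)) :
    ∃ u, 1 ≤ F u := by
  by_contra hcon
  push Not at hcon
  have : ∑ v, F v ≤ 0 := sum_nonpos fun v _ => by
    have := hcon v
    omega
  push_cast at h
  omega

theorem single_split {F : V → ℤ} (h0 : 0 ≤ F) {r : ℕ} (h : ∑ v, F v = ((r + 1 : ℕ) : ℤ)) :
    ∃ (u : V) (F' : V → ℤ), 0 ≤ F' ∧ ∑ v, F' v = r ∧ F = Pi.single u 1 + F' := by
  obtain ⟨u, hu⟩ := exists_pos_of_sum h
  refine ⟨u, F - Pi.single u 1, ?_, ?_, by abel⟩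
  · intro v
    rcases eq_or_ne v u with rfl | hv
    · simp only [Pi.zero_apply, Pi.sub_apply, Pi.single_eq_same]
      linarith
    · simp only [Pi.zero_apply, Pi.sub_apply, Pi.single_eq_of_ne hv, sub_zero]
      exact h0 v
  · simp only [Pi.sub_apply, sum_sub_distrib, h]
    have : ∑ v, (Pi.single u 1 : V → ℤ) v = 1 := by
      rw [Finset.sum_pi_single']
      simp
    rw [this]
    push_cast
    ring

theorem sum_single (u : V) : ∑ v, (Pi.single u 1 : V → ℤ) v = 1 := by
  rw [Finset.sum_pi_single']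
  simp

theorem single_nonneg (u : V) : (0 : V → ℤ) ≤ Pi.single u 1 := by
  intro v
  rcases eq_or_ne v u with rfl | hv
  · simp
  · simp [Pi.single_eq_of_ne hv]

theorem rank_zero_of_cov {M : V → ℤ} {u : V} (h : G.Cov univ M u) :
    ∃ D' : V → ℤ, 0 ≤ D' ∧ G.LinEquiv (M - Pi.single u 1) D' := by
  obtain ⟨f, h1, h2⟩ := h
  refine ⟨M - Pi.single u 1 - G.lap f, ?_, f, by abel⟩
  intro v
  rcases eq_or_ne v u with rfl | hv
  · simp only [Pi.zero_apply, Pi.sub_apply, Pi.single_eq_same]
    rw [lap_eq_lapOn]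
    linarith
  · simp only [Pi.zero_apply, Pi.sub_apply, Pi.single_eq_of_ne hv, sub_zero]
    rw [lap_eq_lapOn]
    exact h1 v

theorem cov_of_rank_zero {M : V → ℤ} {u : V}
    (h : ∃ D' : V → ℤ, 0 ≤ D' ∧ G.LinEquiv (M - Pi.single u 1) D') : G.Cov univ M u := by
  obtain ⟨D', h0, f, hf⟩ := h
  have hval : ∀ p, M p - G.lapOn univ f p = D' p + (Pi.single u 1 : V → ℤ) p := by
    intro p
    have := congrFun hf p
    simp only [Pi.sub_apply] at this
    rw [lap_eq_lapOn] at this
    linarith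
  refine ⟨f, fun p => ?_, ?_⟩
  · rw [hval]
    have := h0 p
    have h3 := single_nonneg u p
    simp only [Pi.zero_apply] at this h3
    linarith
  · rw [hval]
    have := h0 u
    simp only [Pi.zero_apply] at this
    simp only [Pi.single_eq_same]
    linarith

theorem rankAtLeast_one_iff {M : V → ℤ} :
    G.RankAtLeast M 1 ↔ ∀ u, G.Cov univ M u := by
  constructor
  · intro h u
    exact G.cov_of_rank_zero (h _ (single_nonneg u) (by rw [sum_single]; rfl))
  · intro h F h0 hF
    obtain ⟨u, F', h1, h2, h3⟩ := single_split (r := 0) h0 (by rw [hF])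
    have hF' : F' = 0 := by
      funext v
      have := (sum_eq_zero_iff_of_nonneg (fun v _ => h1 v)).1 h2 v (mem_univ v)
      exact this
    rw [h3, hF', add_zero]
    exact G.rank_zero_of_cov (h u)

/-- `M - F` runs through the divisors of rank at least `r`. -/
theorem rankAtLeast_succ {M : V → ℤ} {r : ℕ} :
    G.RankAtLeast M (r + 1) ↔ ∀ u, G.RankAtLeast (M - Pi.single u 1) r := by
  constructor
  · intro h u F h0 hF
    obtain ⟨D', h1, h2⟩ := h (Pi.single u 1 + F) (add_nonneg (single_nonneg u) h0) (by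
      simp only [Pi.add_apply, sum_add_distrib, sum_single, hF]
      push_cast
      ring)
    refine ⟨D', h1, ?_⟩
    rwa [sub_sub]
  · intro h F h0 hF
    obtain ⟨u, F', h1, h2, h3⟩ := single_split h0 hF
    obtain ⟨D', h4, h5⟩ := h u F' h1 h2
    refine ⟨D', h4, ?_⟩
    rw [h3]
    rwa [sub_sub] at h5

theorem rankAtLeast_zero_sum {M : V → ℤ} (h : G.RankAtLeast M 0) : 0 ≤ ∑ v, M v := by
  obtain ⟨D', h0, f, hf⟩ := h 0 le_rfl (by simp)
  have h1 : ∑ v, M v = ∑ v, D' v := by
    have h2 : ∑ v, (M v - D' v) = 0 := by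
      rw [← G.sum_lap f]
      refine sum_congr rfl fun v _ => ?_
      have := congrFun hf v
      simpa using this
    rw [sum_sub_distrib] at h2
    linarith
  rw [h1]
  exact sum_nonneg fun v _ => h0 v

theorem rankAtLeast_mono {M : V → ℤ} {r : ℕ} [Nonempty V] (h : G.RankAtLeast M (r + 1)) :
    G.RankAtLeast M r := by
  intro F h0 hF
  obtain ⟨u⟩ := (inferInstance : Nonempty V)
  obtain ⟨D', h1, f, hf⟩ := h (Pi.single u 1 + F) (add_nonneg (single_nonneg u) h0) (by
      simp only [Pi.add_apply, sum_add_distrib, sum_single, hF]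
      push_cast
      ring)
  refine ⟨D' + Pi.single u 1, add_nonneg h1 (single_nonneg u), f, ?_⟩
  rw [← hf]
  abel

theorem rankAtLeast_zero_of {M : V → ℤ} [Nonempty V] : ∀ {r : ℕ}, G.RankAtLeast M r →
    G.RankAtLeast M 0
  | 0, h => h
  | r + 1, h => rankAtLeast_zero_of (r := r) (G.rankAtLeast_mono h)

theorem sum_sub_single (M : V → ℤ) (u : V) :
    ∑ v, (M - Pi.single u 1 : V → ℤ) v = ∑ v, M v - 1 := by
  simp only [Pi.sub_apply, sum_sub_distrib, sum_single]

/-- From rank at least `r` to rank exactly `r`, without increasing the degree. -/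
theorem exists_hasRank [Nonempty V] {r : ℕ} : ∀ (d : ℕ) (M : V → ℤ), ∑ v, M v = d →
    G.RankAtLeast M r → ∃ (d' : ℕ) (M' : V → ℤ), d' ≤ d ∧ ∑ v, M' v = d' ∧ G.HasRank M' r := by
  intro d
  induction d with
  | zero =>
    intro M hM h
    by_cases h1 : G.RankAtLeast M (r + 1)
    · exfalso
      obtain ⟨u⟩ := (inferInstance : Nonempty V)
      have h2 := G.rankAtLeast_zero_sum (G.rankAtLeast_zero_of (G.rankAtLeast_succ.1 h1 u))
      rw [sum_sub_single, hM] at h2
      simp at h2
    · exact ⟨0, M, le_rfl, hM, h, h1⟩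
  | succ d ih =>
    intro M hM h
    by_cases h1 : G.RankAtLeast M (r + 1)
    · obtain ⟨u⟩ := (inferInstance : Nonempty V)
      obtain ⟨d', M', h3, h4, h5⟩ := ih (M - Pi.single u 1) (by
        rw [sum_sub_single, hM]
        push_cast
        ring) (G.rankAtLeast_succ.1 h1 u)
      exact ⟨d', M', by omega, h4, h5⟩
    · exact ⟨d + 1, M, le_rfl, hM, h, h1⟩

theorem gon_le [Nonempty V] {r d : ℕ} {M : V → ℤ} (hM : ∑ v, M v = d)
    (h : G.RankAtLeast M r) : G.gon r ≤ d := by
  obtain ⟨d', M', h1, h2, h3⟩ := G.exists_hasRank d M hM h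
  have h4 : d' ∈ {d : ℕ | ∃ D : V → ℤ, ∑ v, D v = d ∧ G.HasRank D r} := ⟨M', h2, h3⟩
  exact (Nat.sInf_le h4).trans h1

theorem rankAtLeast_const (r : ℕ) : G.RankAtLeast (fun _ => (r : ℤ)) r := by
  intro F h0 hF
  refine ⟨(fun _ => (r : ℤ)) - F, ?_, 0, ?_⟩
  · intro v
    have : F v ≤ ∑ u, F u := single_le_sum (f := F) (fun u _ => h0 u) (mem_univ v)
    simp only [Pi.zero_apply, Pi.sub_apply]
    linarith
  · funext v
    rw [lap_eq_lapOn, lapOn_zero]
    simp

theorem gon_spec [Nonempty V] (r : ℕ) : ∃ M : V → ℤ, ∑ v, M v = G.gon r ∧ G.HasRank M r := by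
  have hne : {d : ℕ | ∃ D : V → ℤ, ∑ v, D v = d ∧ G.HasRank D r}.Nonempty := by
    obtain ⟨d', M', h1, h2, h3⟩ := G.exists_hasRank (Fintype.card V * r) (fun _ => (r : ℤ)) (by
      simp) (G.rankAtLeast_const r)
    exact ⟨d', M', h2, h3⟩
  exact Nat.sInf_mem hne

theorem le_gon [Nonempty V] {r N : ℕ} (h : ∀ M : V → ℤ, G.RankAtLeast M r → (N : ℤ) ≤ ∑ v, M v) :
    N ≤ G.gon r := by
  obtain ⟨M, h1, h2⟩ := G.gon_spec r
  have := h M h2.1
  rw [h1] at this
  exact_mod_cast this

end MGraph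

end Pool.Agent.V11142.QB
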