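import Pool.Agent.V11142.QB.Basic

/-!
# Structure of quasi-banana graphs I: cuts and legal sets
-/

set_option autoImplicit false

namespace Pool.Agent.V11142.QB

open Finset

namespace MGraph

variable {V E : Type} [Fintype V] [Fintype E] [DecidableEq V] (G : MGraph V E)

/-- The number of edges between `v` and `u`. -/
def mult (v u : V) : ℤ :=
  ∑ e, ((if G.fst e = v ∧ G.snd e = u then 1 else 0) +
    (if G.snd e = v ∧ G.fst e = u then 1 else 0))

theorem mult_nonneg (v u : V) : 0 ≤ G.mult v u :=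
  sum_nonneg fun e _ => by split_ifs <;> norm_num

theorem mult_comm (v u : V) : G.mult v u = G.mult u v := by
  unfold mult
  refine sum_congr rfl fun e _ => ?_
  rw [add_comm]
  congr 1
  · simp only [and_comm]
  · simp only [and_comm]

theorem mult_pos_of_edge {e : E} {a b : V} (h : (G.fst e = a ∧ G.snd e = b) ∨
    (G.fst e = b ∧ G.snd e = a)) : 1 ≤ G.mult a b := by
  unfold mult
  have h1 : ∀ e' ∈ (univ : Finset E), 0 ≤ ((if G.fst e' = a ∧ G.snd e' = b then (1 : ℤ) else 0) +
      (if G.snd e' = a ∧ G.fst e' = b then 1 else 0)) := fun e' _ => by split_ifs <;> norm_num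
  refine le_trans ?_ (single_le_sum h1 (mem_univ e))
  rcases h with h | h
  · rw [if_pos h]
    split_ifs <;> norm_num
  · rw [if_pos (And.intro h.2 h.1)]
    split_ifs <;> norm_num

omit [Fintype V] [Fintype E] [DecidableEq V] in
theorem ite_and_mul (P Q : Prop) [Decidable P] [Decidable Q] (X : ℤ) :
    (if P ∧ Q then (1 : ℤ) else 0) * X = if Q then (if P then X else 0) else 0 := by
  by_cases hP : P <;> by_cases hQ : Q <;> simp [hP, hQ]

theorem lap_eq_mult (f : V → ℤ) (v : V) : G.lapOn univ f v = ∑ u, G.mult v u * (f v - f u) := by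
  unfold lapOn mult
  simp_rw [sum_mul]
  rw [sum_comm]
  refine sum_congr rfl fun e _ => ?_
  have h1 : ∀ u, ((if G.fst e = v ∧ G.snd e = u then (1 : ℤ) else 0) +
      (if G.snd e = v ∧ G.fst e = u then 1 else 0)) * (f v - f u) =
      (if G.snd e = u then (if G.fst e = v then f v - f u else 0) else 0) +
      (if G.fst e = u then (if G.snd e = v then f v - f u else 0) else 0) := by
    intro u
    rw [add_mul, ite_and_mul, ite_and_mul]
  simp_rw [h1]
  rw [sum_add_distrib]
  simp only [sum_ite_eq, mem_univ, if_true]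

/-- Indicator function. -/
def ind (U : Finset V) (p : V) : ℤ := if p ∈ U then 1 else 0

theorem lap_ind_mem {U : Finset V} {x : V} (hx : x ∈ U) :
    G.lapOn univ (ind U) x = ∑ y ∈ Uᶜ, G.mult x y := by
  rw [lap_eq_mult, ← sum_add_sum_compl U]
  have h1 : ∑ u ∈ U, G.mult x u * (ind U x - ind U u) = 0 :=
    sum_eq_zero fun u hu => by simp [ind, hx, hu]
  rw [h1, zero_add]
  refine sum_congr rfl fun u hu => ?_
  have hu' := mem_compl.1 hu
  simp [ind, hx, hu']

theorem lap_ind_not_mem {U : Finset V} {x : V} (hx : x ∉ U) :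
    G.lapOn univ (ind U) x = - ∑ y ∈ U, G.mult x y := by
  rw [lap_eq_mult, ← sum_add_sum_compl U, ← sum_neg_distrib]
  have h1 : ∑ u ∈ Uᶜ, G.mult x u * (ind U x - ind U u) = 0 :=
    sum_eq_zero fun u hu => by
      have hu' := mem_compl.1 hu
      simp [ind, hx, hu']
  rw [h1, add_zero]
  refine sum_congr rfl fun u hu => ?_
  simp [ind, hx, hu]

theorem exists_cut_edge {U : Finset V} {a b : V} (ha : a ∈ U) (hb : b ∉ U) :
    ∃ x ∈ U, ∃ y, y ∉ U ∧ 1 ≤ G.mult x y := by
  by_contra hcon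
  push Not at hcon
  have key : ∀ c, Relation.ReflTransGen
      (fun a b => ∃ e, (G.fst e = a ∧ G.snd e = b) ∨ (G.fst e = b ∧ G.snd e = a)) a c →
      c ∈ U := by
    intro c h
    induction h with
    | refl => exact ha
    | tail _ h2 ih =>
      obtain ⟨e, he⟩ := h2
      by_contra hc
      have := hcon _ ih _ hc
      have h3 := G.mult_pos_of_edge he
      omega
  exact hb (key b (G.connected a b))

/-- The cover property: a divisor reaching all vertices has degree at least `|V|`. -/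
def CoverProp : Prop :=
  ∀ M : V → ℤ, (∀ p, 0 ≤ M p) → (∀ u, G.Cov univ M u) → (Fintype.card V : ℤ) ≤ ∑ p, M p

variable {G}

theorem sum_ind (U : Finset V) : ∑ p, ind U p = U.card := by
  unfold ind
  simp

theorem cov_card (hP : G.CoverProp) {M : V → ℤ} (h0 : ∀ p, 0 ≤ M p) {C : Finset V}
    (hC : ∀ u ∈ C, G.Cov univ M u) : (C.card : ℤ) ≤ ∑ p, M p := by
  have hind : ∀ p, 0 ≤ ind (Cᶜ) p := fun p => by
    unfold ind
    split_ifs <;> norm_num
  have h1 := hP (fun p => M p + ind (Cᶜ) p) (fun p => by linarith [h0 p, hind p]) (fun u => by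
    by_cases hu : u ∈ C
    · exact G.cov_of_le (hC u hu) fun p => by linarith [hind p]
    · refine G.cov_self (fun p => by linarith [h0 p, hind p]) ?_
      have : ind (Cᶜ) u = 1 := by
        unfold ind
        rw [if_pos (mem_compl.2 hu)]
      linarith [h0 u])
  rw [sum_add_distrib, sum_ind, card_compl] at h1
  have h2 := card_le_univ C
  push_cast [Nat.cast_sub h2] at h1
  linarith

/-- Chips on the boundary of `U` reach the other side. -/
theorem cov_of_legal {M : V → ℤ} (h0 : ∀ p, 0 ≤ M p) {U : Finset V}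
    (hU : ∀ x ∈ U, ∑ y ∈ Uᶜ, G.mult x y ≤ M x) {x y : V} (hx : x ∈ U) (hy : y ∉ U)
    (hxy : 1 ≤ G.mult x y) : G.Cov univ M y := by
  refine ⟨ind U, fun p => ?_, ?_⟩
  · by_cases hp : p ∈ U
    · rw [G.lap_ind_mem hp]
      linarith [hU p hp]
    · rw [G.lap_ind_not_mem hp]
      have : 0 ≤ ∑ y ∈ U, G.mult p y := sum_nonneg fun y _ => G.mult_nonneg p y
      linarith [h0 p]
  · rw [G.lap_ind_not_mem hy]
    have h1 : G.mult y x ≤ ∑ z ∈ U, G.mult y z :=
      single_le_sum (f := fun z => G.mult y z) (fun z _ => G.mult_nonneg y z) hx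
    rw [G.mult_comm y x] at h1
    linarith [h0 y]

/-- There is no cut all of whose vertices on one side have at most one edge across. -/
theorem no_thin_cut (hP : G.CoverProp) {Z : Finset V} (hZ : ∀ p ∈ Z, ∑ y ∈ Zᶜ, G.mult p y ≤ 1)
    {a z : V} (ha : a ∈ Z) (hz : z ∉ Z) (haz : 1 ≤ G.mult a z) : False := by
  classical
  set b : V → ℤ := fun p => ∑ y ∈ Zᶜ, G.mult p y with hb
  have hb0 : ∀ p, 0 ≤ b p := fun p => sum_nonneg fun y _ => G.mult_nonneg p y
  set M : V → ℤ := fun p => if p ∈ Z then b p else 0 with hM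
  have hM0 : ∀ p, 0 ≤ M p := fun p => by
    simp only [hM]
    split_ifs
    · exact hb0 p
    · exact le_rfl
  set C := Z.filter (fun p => 1 ≤ b p) with hC
  have hzC : z ∉ C := fun h => hz (mem_filter.1 h).1
  have h1 := cov_card hP hM0 (C := insert z C) (fun u hu => by
    rcases mem_insert.1 hu with rfl | hu
    · refine cov_of_legal hM0 (U := Z) (fun x hx => ?_) ha hz haz
      simp only [hM, if_pos hx]
      exact le_rfl
    · refine G.cov_self hM0 ?_
      simp only [hM, if_pos (mem_filter.1 hu).1]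
      exact (mem_filter.1 hu).2)
  rw [card_insert_of_notMem hzC] at h1
  have h2 : ∑ p, M p ≤ C.card := by
    rw [← sum_ind C]
    refine sum_le_sum fun p _ => ?_
    simp only [hM, ind, hC, mem_filter]
    by_cases hp : p ∈ Z
    · rw [if_pos hp]
      have := hZ p hp
      by_cases h3 : 1 ≤ b p
      · rw [if_pos ⟨hp, h3⟩]
        exact this
      · rw [if_neg (fun h => h3 h.2)]
        omega
    · rw [if_neg hp, if_neg (fun h => hp h.1)]
  push_cast at h1
  linarith

/-- Two chips can be moved to `w`. -/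
def Cov2 (G : MGraph V E) (M : V → ℤ) (w : V) : Prop :=
  ∃ f : V → ℤ, (∀ p, 0 ≤ M p - G.lapOn univ f p) ∧ 2 ≤ M w - G.lapOn univ f w

theorem cov2_of_equiv {M N : V → ℤ} {w : V} (h : G.Cov2 M w) (g : V → ℤ)
    (hMN : ∀ p, M p = N p - G.lapOn univ g p) : G.Cov2 N w := by
  obtain ⟨f, h1, h2⟩ := h
  refine ⟨f + g, fun p => ?_, ?_⟩
  · rw [G.lapOn_add]
    linarith [h1 p, hMN p]
  · rw [G.lapOn_add]
    linarith [hMN w]

theorem exists_legal [Nonempty V] {M : V → ℤ} {w : V} (h : G.Cov2 M w) (hw : M w ≤ 1) :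
    ∃ U : Finset V, U.Nonempty ∧ w ∉ U ∧ ∀ x ∈ U, ∑ y ∈ Uᶜ, G.mult x y ≤ M x := by
  obtain ⟨f, h1, h2⟩ := h
  obtain ⟨m, _, hm⟩ := exists_max_image (univ : Finset V) f univ_nonempty
  set U := univ.filter (fun x => f x = f m) with hU
  have hmem : ∀ x, x ∈ U ↔ f x = f m := fun x => by simp [hU]
  have hlap : ∀ x ∈ U, ∑ y ∈ Uᶜ, G.mult x y ≤ G.lapOn univ f x := by
    intro x hx
    rw [G.lap_eq_mult, ← sum_add_sum_compl U]
    have h3 : ∑ u ∈ U, G.mult x u * (f x - f u) = 0 := sum_eq_zero fun u hu => by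
      rw [(hmem x).1 hx, (hmem u).1 hu]
      ring
    rw [h3, zero_add]
    refine sum_le_sum fun y hy => ?_
    have h4 : f y ≤ f m := hm y (mem_univ y)
    have h5 : f y ≠ f m := fun h => (mem_compl.1 hy) ((hmem y).2 h)
    have h6 : 1 ≤ f x - f y := by
      rw [(hmem x).1 hx]
      omega
    nlinarith [G.mult_nonneg x y]
  refine ⟨U, ⟨m, (hmem m).2 rfl⟩, ?_, fun x hx => ?_⟩
  · intro hwU
    have h3 := hlap w hwU
    have h4 : 0 ≤ ∑ y ∈ Uᶜ, G.mult w y := sum_nonneg fun y _ => G.mult_nonneg w y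
    linarith
  · linarith [hlap x hx, h1 x]

/-- The standard divisor of the core `K` with top vertex `r`. -/
def est (K : Finset V) (r : V) (p : V) : ℤ :=
  (if p = r then (K.card : ℤ) + 1 else 0) + (if p ∈ K then 0 else 1)

theorem cov_single_mono {r : V} {c d : ℤ} (hcd : c ≤ d) {u : V} {M : V → ℤ}
    (h : G.Cov univ (fun p => if p = r then c else 0) u) (h0 : ∀ p, 0 ≤ M p) (hr : d ≤ M r) :
    G.Cov univ M u := by
  refine G.cov_of_le h fun p => ?_
  by_cases hp : p = r
  · subst hp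
    rw [if_pos rfl]
    linarith
  · rw [if_neg hp]
    exact h0 p

/-- Main lemma on legal sets. -/
theorem legal_lemma [Nonempty V] (hP : G.CoverProp) {R K : Finset V} {r w : V}
    (hrR : r ∈ R) (hrK : r ∈ K) (hKR : K ⊆ R)
    (hno : ∀ u ∈ R, u ≠ r → ∀ z, z ∉ R → G.mult u z = 0)
    (hcov : ∀ u ∈ K, G.Cov univ (fun p => if p = r then (K.card : ℤ) else 0) u)
    (hM : G.Cov2 (est K r) w) (hw : w ∉ R) :
    ∃ (U : Finset V) (y : V), R ⊆ U ∧ w ∉ U ∧ y ∉ U ∧ G.mult r y = K.card + 1 ∧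
      (∀ u ∈ U, ∀ z, z ∉ U → z ≠ y → G.mult u z = 0) ∧ (∀ u ∈ U, u ≠ r → G.mult u y ≤ 1) := by
  classical
  have hest : ∀ p, p ≠ r → est K r p ≤ 1 := fun p hp => by
    unfold est
    rw [if_neg hp]
    split_ifs <;> norm_num
  have hwr : w ≠ r := fun h => hw (h ▸ hrR)
  obtain ⟨U0, hne, hwU0, hleg⟩ := exists_legal hM (hest w hwr)
  have hrU0 : r ∈ U0 := by
    by_contra hr
    obtain ⟨a, ha⟩ := hne
    obtain ⟨a', ha', z, hz, haz⟩ := G.exists_cut_edge ha hwU0
    refine no_thin_cut hP (Z := U0) (fun p hp => ?_) ha' hz haz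
    exact (hleg p hp).trans (hest p (fun h => hr (h ▸ hp)))
  set U := U0 ∪ R with hUdef
  have hRU : R ⊆ U := subset_union_right
  have hwU : w ∉ U := fun h => (mem_union.1 h).elim hwU0 hw
  have hbzero : ∀ u ∈ R, u ≠ r → ∑ y ∈ Uᶜ, G.mult u y = 0 := fun u hu hur =>
    sum_eq_zero fun y hy => hno u hu hur y fun h => (mem_compl.1 hy) (hRU h)
  have hb1 : ∀ u ∈ U, u ≠ r → ∑ y ∈ Uᶜ, G.mult u y ≤ 1 := by
    intro u hu hur
    by_cases huR : u ∈ R
    · rw [hbzero u huR hur]
      norm_num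
    · have huU0 : u ∈ U0 := (mem_union.1 hu).resolve_right huR
      refine le_trans (sum_le_sum_of_subset_of_nonneg ?_ fun y _ _ => G.mult_nonneg u y)
        ((hleg u huU0).trans (hest u hur))
      exact compl_subset_compl.2 subset_union_left
  have hbr : ∑ y ∈ Uᶜ, G.mult r y ≤ K.card + 1 := by
    have h1 : est K r r = K.card + 1 := by
      unfold est
      rw [if_pos rfl, if_pos hrK]
      ring
    rw [← h1]
    refine le_trans (sum_le_sum_of_subset_of_nonneg ?_ fun y _ _ => G.mult_nonneg r y)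
      (hleg r hrU0)
    exact compl_subset_compl.2 subset_union_left
  set β := ∑ y ∈ Uᶜ, G.mult r y with hβ
  have hβ0 : 0 ≤ β := sum_nonneg fun y _ => G.mult_nonneg r y
  set Y := U.filter (fun u => u ≠ r ∧ 1 ≤ ∑ y ∈ Uᶜ, G.mult u y) with hY
  set Z := (Uᶜ).filter (fun z => ∃ u ∈ U, 1 ≤ G.mult u z) with hZ
  set M : V → ℤ := fun p => (if p = r then max β K.card else 0) + (if p ∈ Y then 1 else 0) with hMd
  have hM0 : ∀ p, 0 ≤ M p := fun p => by
    simp only [hMd]
    have : 0 ≤ max β (K.card : ℤ) := le_trans hβ0 (le_max_left _ _)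
    split_ifs <;> linarith
  have hYR : ∀ u ∈ Y, u ∉ R := by
    intro u hu huR
    have h1 := (mem_filter.1 hu).2
    rw [hbzero u huR h1.1] at h1
    omega
  have hlegU : ∀ x ∈ U, ∑ y ∈ Uᶜ, G.mult x y ≤ M x := by
    intro x hx
    by_cases hxr : x = r
    · subst hxr
      simp only [hMd, if_true]
      have : β ≤ max β (K.card : ℤ) := le_max_left _ _
      split_ifs <;> linarith
    · simp only [hMd, if_neg hxr]
      have h1 := hb1 x hx hxr
      by_cases h2 : 1 ≤ ∑ y ∈ Uᶜ, G.mult x y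
      · rw [if_pos (mem_filter.2 ⟨hx, hxr, h2⟩)]
        linarith
      · split_ifs <;> omega
  have hcard := cov_card hP hM0 (C := (K ∪ Y) ∪ Z) (fun u hu => by
    rcases mem_union.1 hu with hu | hu
    · rcases mem_union.1 hu with hu | hu
      · refine cov_single_mono le_rfl (hcov u hu) hM0 ?_
        simp only [hMd, if_true]
        have : (K.card : ℤ) ≤ max β (K.card : ℤ) := le_max_right _ _
        split_ifs <;> linarith
      · refine G.cov_self hM0 ?_
        simp only [hMd, if_pos hu]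
        have : 0 ≤ max β (K.card : ℤ) := le_trans hβ0 (le_max_left _ _)
        split_ifs <;> linarith
    · obtain ⟨hz, a, ha, haz⟩ := mem_filter.1 hu
      exact cov_of_legal hM0 hlegU ha (mem_compl.1 hz) haz)
  have hd1 : Disjoint K Y := disjoint_left.2 fun u hu huY => hYR u huY (hKR hu)
  have hd2 : Disjoint (K ∪ Y) Z := disjoint_left.2 fun u hu huZ => by
    have h1 := mem_compl.1 (mem_filter.1 huZ).1
    rcases mem_union.1 hu with hu | hu
    · exact h1 (hRU (hKR hu))
    · exact h1 (mem_filter.1 hu).1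
  rw [card_union_of_disjoint hd2, card_union_of_disjoint hd1] at hcard
  have hsum : ∑ p, M p = max β K.card + Y.card := by
    simp only [hMd, sum_add_distrib, sum_ite_eq', mem_univ, if_true]
    congr 1
    simp
  rw [hsum] at hcard
  have hZpos : 1 ≤ Z.card := by
    obtain ⟨a, ha, z, hz, haz⟩ := G.exists_cut_edge (hRU hrR) hwU
    exact card_pos.2 ⟨z, mem_filter.2 ⟨mem_compl.2 hz, a, ha, haz⟩⟩
  push_cast at hcard
  have hβK : (K.card : ℤ) < β := by
    by_contra hle
    rw [max_eq_right (not_lt.1 hle)] at hcard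
    omega
  rw [max_eq_left hβK.le] at hcard
  have hβ1 : β = K.card + 1 := by omega
  have hZ1 : Z.card = 1 := by omega
  obtain ⟨y, hy⟩ := card_eq_one.1 hZ1
  have hyZ : y ∈ Z := by
    rw [hy]
    exact mem_singleton_self y
  have hyU : y ∉ U := mem_compl.1 (mem_filter.1 hyZ).1
  have huniq : ∀ u ∈ U, ∀ z, z ∉ U → z ≠ y → G.mult u z = 0 := by
    intro u hu z hz hzy
    by_contra hne
    have h1 : 1 ≤ G.mult u z := by
      have := G.mult_nonneg u z
      omega
    have h2 : z ∈ Z := mem_filter.2 ⟨mem_compl.2 hz, u, hu, h1⟩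
    rw [hy] at h2
    exact hzy (mem_singleton.1 h2)
  have hb_eq : ∀ u ∈ U, ∑ z ∈ Uᶜ, G.mult u z = G.mult u y := by
    intro u hu
    refine sum_eq_single y (fun z hz hzy => huniq u hu z (mem_compl.1 hz) hzy) fun h => ?_
    exact absurd (mem_compl.2 hyU) h
  refine ⟨U, y, hRU, hwU, hyU, ?_, huniq, fun u hu hur => ?_⟩
  · rw [← hb_eq r (hRU hrR), ← hβ, hβ1]
  · rw [← hb_eq u hu]
    exact hb1 u hu hur

end MGraph

end Pool.Agent.V11142.QB
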