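import Pool.Agent.V11142.QB.StructA

/-!
# Structure of quasi-banana graphs II: the chain of blocks
-/

set_option autoImplicit false

namespace Pool.Agent.V11142.QB

open Finset

namespace MGraph

variable {V E : Type} [Fintype V] [Fintype E] [DecidableEq V] {G : MGraph V E}

/-- The graph is built from a vertex by adding cliques joined to one vertex (a hub) of the last
clique. -/
inductive Chain (G : MGraph V E) : Finset V → V → Prop
  | base (v : V) : Chain G {v} v
  | step {S : Finset V} {x : V} (B : Finset V) (x' : V) (h : Chain G S x) (hd : Disjoint S B)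
      (hx' : x' ∈ B) (h1 : ∀ y ∈ B, G.mult x y = S.card + 1)
      (h2 : ∀ y ∈ B, ∀ z ∈ B, y ≠ z → G.mult y z = 1)
      (h3 : ∀ u ∈ S, u ≠ x → ∀ y ∈ B, G.mult u y = 0) : Chain G (S ∪ B) x'

/-- The state of the construction. -/
structure St (G : MGraph V E) (S : Finset V) (x : V) : Prop where
  mem : x ∈ S
  noedge : ∀ u ∈ S, u ≠ x → ∀ w, w ∉ S → G.mult u w = 0
  cov : ∀ u ∈ S, G.Cov univ (fun p => if p = x then (S.card : ℤ) else 0) u
  cov2 : ∀ w, G.Cov2 (est S x) w

theorem sum_est {K : Finset V} {r : V} : ∑ p, est K r p = Fintype.card V + 1 := by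
  unfold est
  rw [sum_add_distrib]
  simp only [sum_ite_eq', mem_univ, if_true]
  have h1 : ∑ p, (if p ∈ K then (0 : ℤ) else 1) = Fintype.card V - K.card := by
    have h2 : ∀ p, (if p ∈ K then (0 : ℤ) else 1) = 1 - ind K p := fun p => by
      unfold ind
      split_ifs <;> norm_num
    simp_rw [h2]
    rw [sum_sub_distrib, sum_ind]
    simp
  rw [h1]
  ring

theorem step_lemma [Nonempty V] (hP : G.CoverProp) {S : Finset V} {x : V} (hS : St G S x)
    (hne : ∃ w, w ∉ S) :
    ∃ (B : Finset V) (x' : V), Disjoint S B ∧ x' ∈ B ∧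
      (∀ y ∈ B, G.mult x y = S.card + 1) ∧ (∀ y ∈ B, ∀ z ∈ B, y ≠ z → G.mult y z = 1) ∧
      (∀ u ∈ S, u ≠ x → ∀ y ∈ B, G.mult u y = 0) ∧ St G (S ∪ B) x' := by
  classical
  obtain ⟨w0, hw0⟩ := hne
  have hsc : (1 : ℤ) ≤ S.card := by exact_mod_cast card_pos.2 ⟨x, hS.mem⟩
  have hself : ∀ v, G.mult v v = 0 := by
    intro v
    unfold mult
    refine sum_eq_zero fun e _ => ?_
    have h1 := G.loopless e
    rw [if_neg (fun h => h1 (h.1.trans h.2.symm)), if_neg (fun h => h1 (h.2.trans h.1.symm))]
    rfl
  have hleg : ∀ w, w ∉ S → ∃ (U : Finset V) (y : V), S ⊆ U ∧ w ∉ U ∧ y ∉ U ∧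
      G.mult x y = S.card + 1 ∧ (∀ u ∈ U, ∀ z, z ∉ U → z ≠ y → G.mult u z = 0) ∧
      (∀ u ∈ U, u ≠ x → G.mult u y ≤ 1) := fun w hw =>
    legal_lemma hP hS.mem hS.mem (Subset.refl S) hS.noedge hS.cov (hS.cov2 w) hw
  set B := univ.filter (fun y => y ∉ S ∧ 1 ≤ G.mult x y) with hB
  have hBm : ∀ y, y ∈ B ↔ y ∉ S ∧ 1 ≤ G.mult x y := fun y => by simp [hB]
  have hBS : ∀ y ∈ B, y ∉ S := fun y hy => ((hBm y).1 hy).1
  -- the set behind `y`
  have hU : ∀ y, y ∈ B → ∃ U : Finset V, S ⊆ U ∧ y ∉ U ∧ G.mult x y = S.card + 1 ∧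
      (∀ u ∈ U, ∀ z, z ∉ U → z ≠ y → G.mult u z = 0) ∧ (∀ u ∈ U, u ≠ x → G.mult u y ≤ 1) := by
    intro y hy
    obtain ⟨U, y0, h1, h2, h3, h4, h5, h6⟩ := hleg y (hBS y hy)
    have hyy : y = y0 := by
      by_contra hne
      have := h5 x (h1 hS.mem) y h2 hne
      have h7 := ((hBm y).1 hy).2
      omega
    subst hyy
    exact ⟨U, h1, h2, h4, h5, h6⟩
  choose! U hSU hyU hmxy huniq hle using hU
  have hmem : ∀ y ∈ B, ∀ z ∈ B, z ≠ y → z ∈ U y := by
    intro y hy z hz hzy
    by_contra hzU
    have h1 := huniq y hy x (hSU y hy hS.mem) z hzU hzy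
    have h2 := ((hBm z).1 hz).2
    omega
  have hxB : x ∉ B := fun h => hBS x h hS.mem
  -- boundary sums
  have hbsum : ∀ y ∈ B, ∀ u ∈ U y, ∑ z ∈ (U y)ᶜ, G.mult u z = G.mult u y := by
    intro y hy u hu
    refine sum_eq_single y (fun z hz hzy => huniq y hy u hu z (mem_compl.1 hz) hzy) fun h => ?_
    exact absurd (mem_compl.2 (hyU y hy)) h
  -- clique
  have hclique : ∀ y ∈ B, ∀ z ∈ B, y ≠ z → G.mult y z = 1 := by
    intro y hy z hz hyz
    have hle1 : G.mult y z ≤ 1 := hle z hz y (hmem z hz y hy hyz) (fun h => hxB (h ▸ hy))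
    by_contra hne1
    have hzero : G.mult y z = 0 := by
      have := G.mult_nonneg y z
      omega
    set Y : V → Finset V := fun y => (U y).filter (fun u => u ≠ x ∧ 1 ≤ G.mult u y) with hY
    set M : V → ℤ := fun p => (if p = x then (S.card : ℤ) + 1 else 0) +
      (if p ∈ Y y ∪ Y z then 1 else 0) with hM
    have hM0 : ∀ p, 0 ≤ M p := fun p => by
      simp only [hM]
      split_ifs <;> omega
    have hYS : ∀ t ∈ B, ∀ u ∈ Y t, u ∉ S := by
      intro t ht u hu huS
      have h1 := (mem_filter.1 hu).2
      have h2 := hS.noedge u huS h1.1 t (hBS t ht)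
      omega
    have hlegal : ∀ t ∈ B, Y t ⊆ Y y ∪ Y z → ∀ u ∈ U t, ∑ w ∈ (U t)ᶜ, G.mult u w ≤ M u := by
      intro t ht hsub u hu
      rw [hbsum t ht u hu]
      by_cases hux : u = x
      · subst hux
        rw [hmxy t ht]
        simp only [hM, if_true]
        split_ifs <;> omega
      · have h1 := hle t ht u hu hux
        simp only [hM, if_neg hux]
        by_cases h2 : 1 ≤ G.mult u t
        · rw [if_pos (hsub (mem_filter.2 ⟨hu, hux, h2⟩))]
          omega
        · split_ifs <;> omega
    have hxU : ∀ t ∈ B, x ∈ U t := fun t ht => hSU t ht hS.mem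
    have hcard := cov_card hP hM0 (C := (S ∪ (Y y ∪ Y z)) ∪ {y, z}) (fun u hu => by
      rcases mem_union.1 hu with hu | hu
      · rcases mem_union.1 hu with hu | hu
        · refine cov_single_mono (d := (S.card : ℤ) + 1) (by linarith) (hS.cov u hu) hM0 ?_
          simp only [hM, if_true]
          split_ifs <;> linarith
        · refine G.cov_self hM0 ?_
          simp only [hM, if_pos hu]
          split_ifs <;> linarith
      · rcases mem_insert.1 hu with rfl | hu
        · exact cov_of_legal hM0 (hlegal u hy subset_union_left) (hxU u hy) (hyU u hy)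
            ((hBm u).1 hy).2
        · rw [mem_singleton.1 hu]
          exact cov_of_legal hM0 (hlegal z hz subset_union_right) (hxU z hz) (hyU z hz)
            ((hBm z).1 hz).2)
    have hyn : y ∉ S ∪ (Y y ∪ Y z) := by
      intro h
      rcases mem_union.1 h with h | h
      · exact hBS y hy h
      · rcases mem_union.1 h with h | h
        · exact hyU y hy (mem_filter.1 h).1
        · have := (mem_filter.1 h).2.2
          omega
    have hzn : z ∉ S ∪ (Y y ∪ Y z) := by
      intro h
      rcases mem_union.1 h with h | h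
      · exact hBS z hz h
      · rcases mem_union.1 h with h | h
        · have := (mem_filter.1 h).2.2
          rw [G.mult_comm] at this
          omega
        · exact hyU z hz (mem_filter.1 h).1
    have hd1 : Disjoint S (Y y ∪ Y z) := disjoint_left.2 fun u hu hu2 => by
      rcases mem_union.1 hu2 with h | h
      · exact hYS y hy u h hu
      · exact hYS z hz u h hu
    have hd2 : Disjoint (S ∪ (Y y ∪ Y z)) {y, z} := by
      rw [disjoint_right]
      intro u hu
      rcases mem_insert.1 hu with rfl | hu
      · exact hyn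
      · rw [mem_singleton.1 hu]
        exact hzn
    rw [card_union_of_disjoint hd2, card_union_of_disjoint hd1, card_pair hyz] at hcard
    have hsum : ∑ p, M p = S.card + 1 + (Y y ∪ Y z).card := by
      simp only [hM, sum_add_distrib, sum_ite_eq', mem_univ, if_true]
      congr 1
      exact sum_ind _
    rw [hsum] at hcard
    push_cast at hcard
    omega
  -- neighbours of `y` behind `y` are in the block
  have hnbr : ∀ y ∈ B, ∀ u ∈ U y, u ≠ x → 1 ≤ G.mult u y → u ∈ B := by
    intro y hy u hu hux huy
    by_contra huB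
    have huS : u ∉ S := fun h => by
      have := hS.noedge u h hux y (hBS y hy)
      omega
    obtain ⟨U', y3, k1, k2, k3, k4, k5, k6⟩ := hleg u huS
    have hy3B : y3 ∈ B := (hBm y3).2 ⟨fun h => k3 (k1 h), by omega⟩
    by_cases hyy : y3 = y
    · subst hyy
      refine no_thin_cut hP (Z := U y3 \ U') (fun p hp => ?_) (a := u) (z := y3)
        (mem_sdiff.2 ⟨hu, k2⟩) (fun h => hyU y3 hy (mem_sdiff.1 h).1) huy
      obtain ⟨hp1, hp2⟩ := mem_sdiff.1 hp
      have hpx : p ≠ x := fun h => hp2 (k1 (h ▸ hS.mem))
      rw [sum_eq_single y3]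
      · exact hle y3 hy p hp1 hpx
      · intro z hz hzy
        have hz' : z ∉ U y3 \ U' := mem_compl.1 hz
        by_cases hzU : z ∈ U y3
        · have hzU' : z ∈ U' := by
            by_contra h
            exact hz' (mem_sdiff.2 ⟨hzU, h⟩)
          rw [G.mult_comm]
          exact k5 z hzU' p hp2 (fun h => hyU y3 hy (h ▸ hp1))
        · exact huniq y3 hy p hp1 z hzU hzy
      · intro h
        exact absurd (mem_compl.2 fun h => hyU y3 hy (mem_sdiff.1 h).1) h
    · have hyU' : y ∈ U' := by
        by_contra h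
        have h1 := k5 x (k1 hS.mem) y h (fun h => hyy h.symm)
        have h2 := ((hBm y).1 hy).2
        omega
      have h1 := k5 y hyU' u k2 (fun h => huB (h ▸ hy3B))
      rw [G.mult_comm] at h1
      omega
  set S' := S ∪ B with hS'
  have hdSB : Disjoint S B := disjoint_right.2 fun y hy => hBS y hy
  have hcardS' : (S'.card : ℤ) = S.card + B.card := by
    rw [hS', card_union_of_disjoint hdSB]
    push_cast
    ring
  have hxS' : x ∈ S' := mem_union_left _ hS.mem
  -- firing `U y` turns the divisor of `(S, x)` into the divisor of `(S', y)`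
  have hfire : ∀ y ∈ B, ∀ p, est S' y p = est S x p - G.lapOn univ (ind (U y)) p := by
    intro y hy
    have hoff : ∀ p, p ≠ y → est S' y p = est S x p - G.lapOn univ (ind (U y)) p := by
      intro p hpy
      by_cases hpU : p ∈ U y
      · rw [G.lap_ind_mem hpU, hbsum y hy p hpU]
        by_cases hpx : p = x
        · subst hpx
          rw [hmxy y hy]
          unfold est
          rw [if_neg hpy, if_pos hxS', if_pos rfl, if_pos hS.mem]
          ring
        · by_cases hpS : p ∈ S
          · rw [hS.noedge p hpS hpx y (hBS y hy)]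
            unfold est
            rw [if_neg hpy, if_pos (mem_union_left _ hpS), if_neg hpx, if_pos hpS]
            ring
          · by_cases hpB : p ∈ B
            · rw [hclique p hpB y hy hpy]
              unfold est
              rw [if_neg hpy, if_pos (mem_union_right _ hpB), if_neg hpx, if_neg hpS]
              ring
            · have h1 : G.mult p y = 0 := by
                have h2 := G.mult_nonneg p y
                by_contra h3
                exact hpB (hnbr y hy p hpU hpx (by omega))
              rw [h1]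
              unfold est
              rw [if_neg hpy, if_neg (fun h => (mem_union.1 h).elim hpS hpB), if_neg hpx,
                if_neg hpS]
              ring
      · rw [G.lap_ind_not_mem hpU]
        have h1 : ∑ z ∈ U y, G.mult p z = 0 := sum_eq_zero fun z hz => by
          rw [G.mult_comm]
          exact huniq y hy z hz p hpU hpy
        have hpS : p ∉ S := fun h => hpU (hSU y hy h)
        have hpB : p ∉ B := fun h => hpU (hmem y hy p h hpy)
        have hpx : p ≠ x := fun h => hpS (h ▸ hS.mem)
        rw [h1]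
        unfold est
        rw [if_neg hpy, if_neg (fun h => (mem_union.1 h).elim hpS hpB), if_neg hpx, if_neg hpS]
        ring
    intro p
    by_cases hpy : p = y
    · subst hpy
      have h1 := sum_est (K := S') (r := p)
      have h2 : ∑ q, (est S x q - G.lapOn univ (ind (U p)) q) = Fintype.card V + 1 := by
        rw [sum_sub_distrib, sum_est, G.sum_lapOn]
        ring
      rw [← add_sum_erase _ _ (mem_univ p)] at h1 h2
      have h3 : ∑ q ∈ univ.erase p, est S' p q =
          ∑ q ∈ univ.erase p, (est S x q - G.lapOn univ (ind (U p)) q) :=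
        sum_congr rfl fun q hq => hoff q (ne_of_mem_erase hq)
      linarith
    · exact hoff p hpy
  -- the divisor `card S' • y`
  have hfire2 : ∀ y ∈ B, ∀ p, (if p = y then (S'.card : ℤ) else 0) =
      ((if p = x then (S.card : ℤ) + 1 else 0) + (if p ∈ B.erase y then 1 else 0)) -
        G.lapOn univ (ind (U y)) p := by
    intro y hy p
    have h1 := hfire y hy p
    unfold est at h1
    have hxy : x ≠ y := fun h => hxB (h ▸ hy)
    by_cases hpy : p = y
    · subst hpy
      have h2 : p ∈ S' := mem_union_right _ hy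
      have h3 : p ∉ S := hBS p hy
      have h4 : p ∉ B.erase p := notMem_erase p B
      rw [if_pos rfl, if_pos h2, if_neg (Ne.symm hxy), if_neg h3] at h1
      rw [if_pos rfl, if_neg (Ne.symm hxy), if_neg h4]
      linarith
    · rw [if_neg hpy] at h1 ⊢
      by_cases hpS : p ∈ S
      · have h4 : p ∉ B.erase y := fun h => hBS p (mem_of_mem_erase h) hpS
        rw [if_pos (mem_union_left _ hpS), if_pos hpS] at h1
        rw [if_neg h4]
        linarith
      · by_cases hpB : p ∈ B
        · rw [if_pos (mem_union_right _ hpB), if_neg hpS] at h1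
          rw [if_pos (mem_erase.2 ⟨hpy, hpB⟩)]
          linarith
        · rw [if_neg (fun h => (mem_union.1 h).elim hpS hpB), if_neg hpS] at h1
          rw [if_neg (fun h => hpB (mem_of_mem_erase h))]
          linarith
  have hcov' : ∀ y ∈ B, ∀ u ∈ S', G.Cov univ (fun p => if p = y then (S'.card : ℤ) else 0) u := by
    intro y hy u hu
    have h0 : ∀ p, (0 : ℤ) ≤ (fun p => if p = y then (S'.card : ℤ) else 0) p := fun p => by
      dsimp only
      split_ifs
      · positivity
      · exact le_rfl
    by_cases huy : u = y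
    · refine G.cov_self h0 ?_
      rw [if_pos huy, hcardS']
      linarith
    · set N : V → ℤ := fun p => (if p = x then (S.card : ℤ) + 1 else 0) +
        (if p ∈ B.erase y then 1 else 0) with hN
      have hN0 : ∀ p, 0 ≤ N p := fun p => by
        simp only [hN]
        split_ifs <;> omega
      have h1 : G.Cov univ N u := by
        rcases mem_union.1 hu with hu | hu
        · refine cov_single_mono (d := (S.card : ℤ) + 1) (by linarith) (hS.cov u hu) hN0 ?_
          simp only [hN, if_true]
          split_ifs <;> linarith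
        · refine G.cov_self hN0 ?_
          simp only [hN]
          rw [if_pos (mem_erase.2 ⟨huy, hu⟩)]
          split_ifs <;> linarith
      refine G.cov_of_equiv h1 (-ind (U y)) fun p => ?_
      rw [G.lapOn_neg]
      rw [hfire2 y hy p]
      simp only [hN]
      linarith
  have hcov2' : ∀ y ∈ B, ∀ w, G.Cov2 (est S' y) w := by
    intro y hy w
    refine cov2_of_equiv (hS.cov2 w) (-ind (U y)) fun p => ?_
    rw [G.lapOn_neg, hfire y hy p]
    ring
  -- at most one vertex of the block has neighbours outside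
  have hone : ∀ y1 ∈ B, ∀ y2 ∈ B, y1 ≠ y2 → ∀ z1, z1 ∉ S' → 1 ≤ G.mult y1 z1 →
      ∀ z2, z2 ∉ S' → 1 ≤ G.mult y2 z2 → False := by
    intro y1 hy1 y2 hy2 hy12 z1 hz1 hyz1 z2 hz2 hyz2
    have hsec : ∀ y ∈ B, ∀ z, z ∉ S' → 1 ≤ G.mult y z →
        ∃ (W : Finset V) (t : V), insert y (U y) ⊆ W ∧ z ∉ W ∧ t ∉ W ∧
          G.mult y t = S'.card + 1 ∧ (∀ u ∈ W, ∀ z, z ∉ W → z ≠ t → G.mult u z = 0) ∧
          (∀ u ∈ W, u ≠ y → G.mult u t ≤ 1) := by
      intro y hy z hz hyz
      have hzU : z ∉ U y := fun h => by
        have hzx : z ≠ x := fun h => hz (h ▸ hxS')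
        rw [G.mult_comm] at hyz
        exact hz (mem_union_right _ (hnbr y hy z h hzx hyz))
      refine legal_lemma hP (mem_insert_self _ _) (mem_union_right _ hy) ?_ ?_
        (hcov' y hy) (hcov2' y hy z) ?_
      · intro u hu
        by_cases huy : u = y
        · rw [huy]
          exact mem_insert_self _ _
        · rcases mem_union.1 hu with hu | hu
          · exact mem_insert_of_mem (hSU y hy hu)
          · exact mem_insert_of_mem (hmem y hy u hu huy)
      · intro u hu huy w hw
        have hu' : u ∈ U y := (mem_insert.1 hu).resolve_left huy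
        exact huniq y hy u hu' w (fun h => hw (mem_insert_of_mem h))
          (fun h => hw (h ▸ mem_insert_self _ _))
      · intro h
        rcases mem_insert.1 h with h | h
        · exact hz (h ▸ mem_union_right _ hy)
        · exact hzU h
    obtain ⟨W1, t1, a1, a2, a3, a4, a5, a6⟩ := hsec y1 hy1 z1 hz1 hyz1
    obtain ⟨W2, t2, b1, b2, b3, b4, b5, b6⟩ := hsec y2 hy2 z2 hz2 hyz2
    have hnoedge : ∀ y ∈ B, ∀ u ∈ insert y (U y), u ≠ y → ∀ z, z ∉ insert y (U y) →
        G.mult u z = 0 := by
      intro y hy u hu huy w hw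
      have hu' : u ∈ U y := (mem_insert.1 hu).resolve_left huy
      exact huniq y hy u hu' w (fun h => hw (mem_insert_of_mem h))
        (fun h => hw (h ▸ mem_insert_self _ _))
    have hS'sub : ∀ y ∈ B, S' ⊆ insert y (U y) := by
      intro y hy u hu
      by_cases huy : u = y
      · rw [huy]
        exact mem_insert_self _ _
      · rcases mem_union.1 hu with hu | hu
        · exact mem_insert_of_mem (hSU y hy hu)
        · exact mem_insert_of_mem (hmem y hy u hu huy)
    -- the two sides are disjoint
    have hQ : ∀ q, q ∈ insert y1 (U y1) ∨ q ∈ insert y2 (U y2) := by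
      by_contra hcon
      push Not at hcon
      obtain ⟨q, hq1, hq2⟩ := hcon
      set Q : Finset V := (insert y1 (U y1) ∪ insert y2 (U y2))ᶜ with hQd
      have hqQ : q ∈ Q := mem_compl.2 fun h => (mem_union.1 h).elim hq1 hq2
      have hxQ : x ∉ Q := fun h => (mem_compl.1 h)
        (mem_union_left _ (hS'sub y1 hy1 hxS'))
      obtain ⟨a, ha, b, hb, hab⟩ := G.exists_cut_edge hqQ hxQ
      have ha1 : a ∉ insert y1 (U y1) := fun h => (mem_compl.1 ha) (mem_union_left _ h)
      have ha2 : a ∉ insert y2 (U y2) := fun h => (mem_compl.1 ha) (mem_union_right _ h)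
      have hb' : b ∈ insert y1 (U y1) ∪ insert y2 (U y2) := by
        by_contra h
        exact hb (mem_compl.2 h)
      rw [G.mult_comm] at hab
      rcases mem_union.1 hb' with h | h
      · by_cases hby : b = y1
        · subst hby
          have h1 := huniq y2 hy2 b (hmem y2 hy2 b hy1 hy12) a
            (fun h => ha2 (mem_insert_of_mem h)) (fun h => ha2 (h ▸ mem_insert_self _ _))
          omega
        · have h1 := hnoedge y1 hy1 b h hby a ha1
          omega
      · by_cases hby : b = y2
        · subst hby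
          have h1 := huniq y1 hy1 b (hmem y1 hy1 b hy2 (Ne.symm hy12)) a
            (fun h => ha1 (mem_insert_of_mem h)) (fun h => ha1 (h ▸ mem_insert_self _ _))
          omega
        · have h1 := hnoedge y2 hy2 b h hby a ha2
          omega
    set Y1 := W1.filter (fun u => u ≠ y1 ∧ 1 ≤ G.mult u t1) with hY1
    set Y2 := W2.filter (fun u => u ≠ y2 ∧ 1 ≤ G.mult u t2) with hY2
    have ht1 : t1 ∉ insert y1 (U y1) := fun h => a3 (a1 h)
    have ht2 : t2 ∉ insert y2 (U y2) := fun h => b3 (b1 h)
    have hY1R : ∀ u ∈ Y1, u ∉ insert y1 (U y1) := by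
      intro u hu hu2
      have h1 := (mem_filter.1 hu).2
      have h2 := hnoedge y1 hy1 u hu2 h1.1 t1 ht1
      omega
    have hY2R : ∀ u ∈ Y2, u ∉ insert y2 (U y2) := by
      intro u hu hu2
      have h1 := (mem_filter.1 hu).2
      have h2 := hnoedge y2 hy2 u hu2 h1.1 t2 ht2
      omega
    have hsep : ∀ u, u ∉ insert y1 (U y1) → u ∉ insert y2 (U y2) → False := fun u h1 h2 =>
      (hQ u).elim h1 h2
    set M : V → ℤ := fun p => (if p = y1 then (S'.card : ℤ) + 1 else 0) +
      (if p ∈ Y1 ∪ Y2 then 1 else 0) with hM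
    set M2 : V → ℤ := fun p => (if p = y2 then (S'.card : ℤ) + 1 else 0) +
      (if p ∈ Y1 ∪ Y2 then 1 else 0) with hM2
    have hM0 : ∀ p, 0 ≤ M p := fun p => by
      simp only [hM]
      split_ifs <;> omega
    have hM20 : ∀ p, 0 ≤ M2 p := fun p => by
      simp only [hM2]
      split_ifs <;> omega
    have hlegal : ∀ (y t : V) (W Y : Finset V), y ∈ W → t ∉ W → G.mult y t = S'.card + 1 →
        (∀ u ∈ W, ∀ z, z ∉ W → z ≠ t → G.mult u z = 0) → (∀ u ∈ W, u ≠ y → G.mult u t ≤ 1) →
        (∀ u ∈ W, u ≠ y → 1 ≤ G.mult u t → u ∈ Y) → ∀ u ∈ W, ∑ w ∈ Wᶜ, G.mult u w ≤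
          (if u = y then (S'.card : ℤ) + 1 else 0) + (if u ∈ Y then 1 else 0) := by
      intro y t W Y hyW htW hyt c1 c2 c3 u hu
      rw [sum_eq_single t (fun z hz hzt => c1 u hu z (mem_compl.1 hz) hzt)
        (fun h => absurd (mem_compl.2 htW) h)]
      by_cases huy : u = y
      · subst huy
        rw [hyt, if_pos rfl]
        split_ifs <;> omega
      · have h1 := c2 u hu huy
        rw [if_neg huy]
        by_cases h2 : 1 ≤ G.mult u t
        · rw [if_pos (c3 u hu huy h2)]
          omega
        · split_ifs <;> omega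
    have hmem1 : y1 ∈ W1 := a1 (mem_insert_self _ _)
    have hmem2 : y2 ∈ W2 := b1 (mem_insert_self _ _)
    have hcovt1 : G.Cov univ M t1 := by
      refine cov_of_legal hM0 (U := W1) (x := y1) ?_ hmem1 a3 (by omega)
      exact hlegal y1 t1 W1 (Y1 ∪ Y2) hmem1 a3 a4 a5 a6 fun u hu huy h =>
        mem_union_left _ (mem_filter.2 ⟨hu, huy, h⟩)
    have hcovt2' : G.Cov univ M2 t2 := by
      refine cov_of_legal hM20 (U := W2) (x := y2) ?_ hmem2 b3 (by omega)
      exact hlegal y2 t2 W2 (Y1 ∪ Y2) hmem2 b3 b4 b5 b6 fun u hu huy h =>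
        mem_union_right _ (mem_filter.2 ⟨hu, huy, h⟩)
    have hcovt2 : G.Cov univ M t2 := by
      refine G.cov_of_equiv hcovt2' (ind (U y2) - ind (U y1)) fun p => ?_
      rw [G.lapOn_sub]
      have h1 := hfire2 y1 hy1 p
      have h2 := hfire2 y2 hy2 p
      simp only [hM, hM2]
      have h3 : (if p = y1 then (S'.card : ℤ) + 1 else 0) =
          (if p = y1 then (S'.card : ℤ) else 0) + (if p = y1 then 1 else 0) := by
        split_ifs <;> ring
      have h4 : (if p = y2 then (S'.card : ℤ) + 1 else 0) =
          (if p = y2 then (S'.card : ℤ) else 0) + (if p = y2 then 1 else 0) := by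
        split_ifs <;> ring
      have h5 : (if p ∈ B.erase y1 then (1 : ℤ) else 0) + (if p = y1 then 1 else 0) =
          (if p ∈ B.erase y2 then (1 : ℤ) else 0) + (if p = y2 then 1 else 0) := by
        by_cases c1 : p = y1
        · subst c1
          rw [if_neg (notMem_erase p B), if_pos rfl, if_pos (mem_erase.2 ⟨hy12, hy1⟩),
            if_neg hy12]
          ring
        · by_cases c2 : p = y2
          · subst c2
            rw [if_pos (mem_erase.2 ⟨c1, hy2⟩), if_neg c1, if_neg (notMem_erase p B), if_pos rfl]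
            ring
          · simp only [mem_erase, ne_eq, c1, c2, not_false_eq_true, true_and, if_false]
      rw [h3, h4, h1, h2]
      linarith
    have hcard := cov_card hP hM0 (C := (S' ∪ (Y1 ∪ Y2)) ∪ {t1, t2}) (fun u hu => by
      rcases mem_union.1 hu with hu | hu
      · rcases mem_union.1 hu with hu | hu
        · refine cov_single_mono (d := (S'.card : ℤ) + 1) (by linarith) (hcov' y1 hy1 u hu) hM0 ?_
          simp only [hM, if_true]
          split_ifs <;> linarith
        · refine G.cov_self hM0 ?_
          simp only [hM, if_pos hu]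
          split_ifs <;> linarith
      · rcases mem_insert.1 hu with rfl | hu
        · exact hcovt1
        · rw [mem_singleton.1 hu]
          exact hcovt2)
    have hd1 : Disjoint S' (Y1 ∪ Y2) := disjoint_left.2 fun u hu hu2 => by
      rcases mem_union.1 hu2 with h | h
      · exact hY1R u h (hS'sub y1 hy1 hu)
      · exact hY2R u h (hS'sub y2 hy2 hu)
    have ht12 : t1 ≠ t2 := fun h => hsep t1 ht1 (h ▸ ht2)
    have ht1n : t1 ∉ S' ∪ (Y1 ∪ Y2) := by
      intro h
      rcases mem_union.1 h with h | h
      · exact ht1 (hS'sub y1 hy1 h)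
      · rcases mem_union.1 h with h | h
        · exact a3 (mem_filter.1 h).1
        · exact hsep t1 ht1 (hY2R t1 h)
    have ht2n : t2 ∉ S' ∪ (Y1 ∪ Y2) := by
      intro h
      rcases mem_union.1 h with h | h
      · exact ht2 (hS'sub y2 hy2 h)
      · rcases mem_union.1 h with h | h
        · exact hsep t2 (hY1R t2 h) ht2
        · exact b3 (mem_filter.1 h).1
    have hd2 : Disjoint (S' ∪ (Y1 ∪ Y2)) {t1, t2} := by
      rw [disjoint_right]
      intro u hu
      rcases mem_insert.1 hu with rfl | hu
      · exact ht1n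
      · rw [mem_singleton.1 hu]
        exact ht2n
    rw [card_union_of_disjoint hd2, card_union_of_disjoint hd1, card_pair ht12] at hcard
    have hsum : ∑ p, M p = S'.card + 1 + (Y1 ∪ Y2).card := by
      simp only [hM, sum_add_distrib, sum_ite_eq', mem_univ, if_true]
      congr 1
      exact sum_ind _
    rw [hsum] at hcard
    push_cast at hcard
    omega
  -- the block is nonempty
  have hBne : B.Nonempty := by
    obtain ⟨a, ha, b, hb, hab⟩ := G.exists_cut_edge hS.mem hw0
    have hax : a = x := by
      by_contra h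
      have := hS.noedge a ha h b hb
      omega
    subst hax
    exact ⟨b, (hBm b).2 ⟨hb, hab⟩⟩
  have hchoose : ∃ x' ∈ B, ∀ u ∈ S', u ≠ x' → ∀ w, w ∉ S' → G.mult u w = 0 := by
    have hin : ∀ u ∈ S', u ∉ B → ∀ w, w ∉ S' → G.mult u w = 0 := by
      intro u hu huB w hw
      have huS : u ∈ S := (mem_union.1 hu).resolve_right huB
      have hwS : w ∉ S := fun h => hw (mem_union_left _ h)
      by_cases hux : u = x
      · subst hux
        have h1 := G.mult_nonneg u w
        by_contra h2
        exact hw (mem_union_right _ ((hBm w).2 ⟨hwS, by omega⟩))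
      · exact hS.noedge u huS hux w hwS
    by_cases hex : ∃ y ∈ B, ∃ z, z ∉ S' ∧ 1 ≤ G.mult y z
    · obtain ⟨y, hy, z, hz, hyz⟩ := hex
      refine ⟨y, hy, fun u hu huy w hw => ?_⟩
      by_cases huB : u ∈ B
      · by_contra h2
        have h1 := G.mult_nonneg u w
        exact hone u huB y hy huy w hw (by omega) z hz hyz
      · exact hin u hu huB w hw
    · push Not at hex
      obtain ⟨y, hy⟩ := hBne
      refine ⟨y, hy, fun u hu _ w hw => ?_⟩
      by_cases huB : u ∈ B
      · have h1 := G.mult_nonneg u w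
        have h2 := hex u huB w hw
        omega
      · exact hin u hu huB w hw
  obtain ⟨x', hx', hno'⟩ := hchoose
  refine ⟨B, x', hdSB, hx', fun y hy => hmxy y hy, hclique, fun u hu hux y hy =>
    hS.noedge u hu hux y (hBS y hy), ?_⟩
  exact ⟨mem_union_right _ hx', hno', hcov' x' hx', hcov2' x' hx'⟩

theorem exists_chain [Nonempty V] (hP : G.CoverProp) : ∀ (n : ℕ) (S : Finset V) (x : V),
    (Sᶜ).card = n → St G S x → Chain G S x → ∃ x', Chain G univ x' := by
  intro n
  induction n using Nat.strong_induction_on with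
  | _ n ih =>
    intro S x hn hS hC
    by_cases hne : ∃ w, w ∉ S
    · obtain ⟨B, x', h1, h2, h3, h4, h5, h6⟩ := step_lemma hP hS hne
      refine ih _ ?_ (S ∪ B) x' rfl h6 (Chain.step B x' hC h1 h2 h3 h4 h5)
      rw [← hn]
      refine card_lt_card ?_
      rw [ssubset_iff_subset_ne]
      refine ⟨compl_subset_compl.2 subset_union_left, fun h => ?_⟩
      have h7 : x' ∈ Sᶜ := mem_compl.2 fun h => disjoint_left.1 h1 h h2
      rw [← h] at h7
      exact (mem_compl.1 h7) (mem_union_right _ h2)
    · push Not at hne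
      have : S = univ := eq_univ_iff_forall.2 hne
      exact ⟨x, this ▸ hC⟩

end MGraph

end Pool.Agent.V11142.QB
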