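import Pool.Agent.V11142.QB.Basic

/-!
# Equal subdivisions: Laplacian, lifting of equivalences, and rank
-/

set_option autoImplicit false

namespace Pool.Agent.V11142.QB

open Finset

namespace MGraph

variable {V E : Type} (G : MGraph V E)

/-- The `i`-th vertex (`0 ≤ i ≤ m + 1`) of the path which replaces the edge `e`. -/
def pos (m : ℕ) (e : E) (i : ℕ) : V ⊕ E × Fin m :=
  if h : 1 ≤ i ∧ i ≤ m then Sum.inr (e, ⟨i - 1, by omega⟩)
  else if i = 0 then Sum.inl (G.fst e) else Sum.inl (G.snd e)

theorem pos_zero (m : ℕ) (e : E) : G.pos m e 0 = Sum.inl (G.fst e) := by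
  unfold pos
  rw [dif_neg (by omega), if_pos rfl]

theorem pos_last (m : ℕ) (e : E) : G.pos m e (m + 1) = Sum.inl (G.snd e) := by
  unfold pos
  rw [dif_neg (by omega), if_neg (by omega)]

theorem pos_mid (m : ℕ) (e : E) (j : Fin m) : G.pos m e (j + 1) = Sum.inr (e, j) := by
  unfold pos
  rw [dif_pos ⟨by omega, by omega⟩]
  rfl

theorem pos_interior {m : ℕ} (e : E) {i : ℕ} (h : 1 ≤ i ∧ i ≤ m) :
    G.pos m e i = Sum.inr (e, ⟨i - 1, by omega⟩) := by
  unfold pos
  rw [dif_pos h]

theorem pos_eq_inl {m : ℕ} {e : E} {i : ℕ} {v : V} (h : G.pos m e i = Sum.inl v) :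
    (i = 0 ∧ G.fst e = v) ∨ (m < i ∧ G.snd e = v) := by
  unfold pos at h
  split_ifs at h with h1 h2
  · exact Or.inl ⟨h2, Sum.inl.inj h⟩
  · exact Or.inr ⟨by omega, Sum.inl.inj h⟩

theorem pos_eq_inr {m : ℕ} {e e' : E} {i : ℕ} {j : Fin m} (h : G.pos m e i = Sum.inr (e', j)) :
    e = e' ∧ i = j + 1 := by
  unfold pos at h
  split_ifs at h with h1 h2
  have h3 := Sum.inr.inj h
  have h4 := congrArg Prod.fst h3
  have h5 := congrArg (fun a => (Prod.snd a : Fin m).val) h3
  simp only at h4 h5
  exact ⟨h4, by omega⟩

/-- The graph in which every edge is replaced by a path with `m` new internal vertices. -/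
def subdiv (m : ℕ) : MGraph (V ⊕ E × Fin m) (E × Fin (m + 1)) where
  fst a := G.pos m a.1 a.2
  snd a := G.pos m a.1 (a.2 + 1)
  loopless := by
    rintro ⟨e, i, hi⟩ h
    simp only at h
    rcases hp : G.pos m e (i + 1) with v | ⟨e', j⟩
    · rw [hp] at h
      rcases G.pos_eq_inl hp with h1 | h1 <;> rcases G.pos_eq_inl h with h2 | h2
      · omega
      · omega
      · exact G.loopless e (h2.2.trans h1.2.symm)
      · omega
    · rw [hp] at h
      have h1 := G.pos_eq_inr hp
      have h2 := G.pos_eq_inr h
      omega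
  connected := by
    set R : V ⊕ E × Fin m → V ⊕ E × Fin m → Prop := fun a b =>
      ∃ e : E × Fin (m + 1), (G.pos m e.1 e.2 = a ∧ G.pos m e.1 (e.2 + 1) = b) ∨
        (G.pos m e.1 e.2 = b ∧ G.pos m e.1 (e.2 + 1) = a) with hR
    haveI hs : Std.Symm R := ⟨by
      rintro a b ⟨e, h⟩
      exact ⟨e, h.symm⟩⟩
    have h1 : ∀ (e : E) (i : ℕ), i ≤ m + 1 →
        Relation.ReflTransGen R (Sum.inl (G.fst e)) (G.pos m e i) := by
      intro e i
      induction i with
      | zero =>
        intro _
        rw [G.pos_zero]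
      | succ i ih =>
        intro hi
        exact (ih (by omega)).tail ⟨(e, ⟨i, by omega⟩), Or.inl ⟨rfl, rfl⟩⟩
    have h2 : ∀ a b : V, Relation.ReflTransGen R (Sum.inl a) (Sum.inl b) := by
      intro a b
      have := G.connected a b
      induction this with
      | refl => exact Relation.ReflTransGen.refl
      | tail _ h3 ih =>
        refine ih.trans ?_
        obtain ⟨e, he | he⟩ := h3
        · have := h1 e (m + 1) le_rfl
          rw [G.pos_last] at this
          rwa [he.1, he.2] at this
        · have := h1 e (m + 1) le_rfl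
          rw [G.pos_last] at this
          rw [he.1, he.2] at this
          exact Relation.ReflTransGen.symmetric.symm _ _ this
    have h3 : ∀ (a : V) (p : V ⊕ E × Fin m), Relation.ReflTransGen R (Sum.inl a) p := by
      intro a p
      rcases p with b | ⟨e, j⟩
      · exact h2 a b
      · refine (h2 a (G.fst e)).trans ?_
        rw [← G.pos_mid m e j]
        exact h1 e _ (by omega)
    intro p q
    rcases p with a | ⟨e, j⟩
    · exact h3 a q
    · exact (Relation.ReflTransGen.symmetric.symm _ _ (h3 (G.fst e) (Sum.inr (e, j)))).trans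
        (h3 (G.fst e) q)

variable [Fintype V] [Fintype E] [DecidableEq V] [DecidableEq E]

theorem subdiv_lapOn (m : ℕ) (F : Finset E) (h : V ⊕ E × Fin m → ℤ) (p : V ⊕ E × Fin m) :
    (G.subdiv m).lapOn (F ×ˢ univ) h p = ∑ e ∈ F, ∑ i : Fin (m + 1),
      ((if G.pos m e i = p then h p - h (G.pos m e (i + 1)) else 0) +
      (if G.pos m e (i + 1) = p then h p - h (G.pos m e i) else 0)) := by
  unfold lapOn
  rw [sum_product]
  rfl

theorem subdiv_lapOn_inl (m : ℕ) (F : Finset E) (h : V ⊕ E × Fin m → ℤ) (v : V) :
    (G.subdiv m).lapOn (F ×ˢ univ) h (Sum.inl v) =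
      ∑ e ∈ F, ((if G.fst e = v then h (Sum.inl v) - h (G.pos m e 1) else 0) +
        (if G.snd e = v then h (Sum.inl v) - h (G.pos m e m) else 0)) := by
  rw [subdiv_lapOn]
  refine sum_congr rfl fun e _ => ?_
  rw [sum_add_distrib]
  congr 1
  · rw [sum_eq_single (0 : Fin (m + 1))]
    · simp only [Fin.val_zero, G.pos_zero, Sum.inl.injEq, zero_add]
    · intro i _ hi
      rw [if_neg]
      intro h1
      rcases G.pos_eq_inl h1 with h2 | h2
      · exact hi (Fin.ext h2.1)
      · have := i.2
        omega
    · intro h1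
      exact absurd (mem_univ _) h1
  · rw [sum_eq_single (Fin.last m)]
    · simp only [Fin.val_last, G.pos_last, Sum.inl.injEq]
    · intro i _ hi
      rw [if_neg]
      intro h1
      rcases G.pos_eq_inl h1 with h2 | h2
      · omega
      · have := i.2
        exact hi (Fin.ext (by simp only [Fin.val_last]; omega))
    · intro h1
      exact absurd (mem_univ _) h1

theorem subdiv_lapOn_inr (m : ℕ) (F : Finset E) (h : V ⊕ E × Fin m → ℤ) (e : E) (j : Fin m) :
    (G.subdiv m).lapOn (F ×ˢ univ) h (Sum.inr (e, j)) =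
      if e ∈ F then 2 * h (Sum.inr (e, j)) - h (G.pos m e j) - h (G.pos m e (j + 2)) else 0 := by
  rw [subdiv_lapOn]
  have hzero : ∀ e' ∈ F, e' ≠ e → ∑ i : Fin (m + 1),
      ((if G.pos m e' i = Sum.inr (e, j) then h (Sum.inr (e, j)) - h (G.pos m e' (i + 1)) else 0) +
      (if G.pos m e' (i + 1) = Sum.inr (e, j) then h (Sum.inr (e, j)) - h (G.pos m e' i) else 0))
        = 0 := by
    intro e' _ hne
    refine sum_eq_zero fun i _ => ?_
    rw [if_neg (fun h1 => hne (G.pos_eq_inr h1).1), if_neg (fun h1 => hne (G.pos_eq_inr h1).1)]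
    rfl
  by_cases he : e ∈ F
  · rw [if_pos he, sum_eq_single_of_mem e he hzero, sum_add_distrib]
    have hj := j.2
    have h1 : ∑ i : Fin (m + 1), (if G.pos m e i = Sum.inr (e, j) then
        h (Sum.inr (e, j)) - h (G.pos m e (i + 1)) else 0) =
        h (Sum.inr (e, j)) - h (G.pos m e (j + 2)) := by
      rw [sum_eq_single (⟨j + 1, by omega⟩ : Fin (m + 1))]
      · simp only [G.pos_mid, if_true]
      · intro i _ hi
        rw [if_neg]
        intro h1
        exact hi (Fin.ext (G.pos_eq_inr h1).2)
      · intro h1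
        exact absurd (mem_univ _) h1
    have h2 : ∑ i : Fin (m + 1), (if G.pos m e (i + 1) = Sum.inr (e, j) then
        h (Sum.inr (e, j)) - h (G.pos m e i) else 0) =
        h (Sum.inr (e, j)) - h (G.pos m e j) := by
      rw [sum_eq_single (⟨j, by omega⟩ : Fin (m + 1))]
      · simp only [G.pos_mid, if_true]
      · intro i _ hi
        rw [if_neg]
        intro h1
        have := (G.pos_eq_inr h1).2
        exact hi (Fin.ext (by simp only; omega))
      · intro h1
        exact absurd (mem_univ _) h1
    rw [h1, h2]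
    ring
  · rw [if_neg he]
    refine sum_eq_zero fun e' he' => ?_
    exact hzero e' he' (fun h1 => he (h1 ▸ he'))

theorem univ_prod (m : ℕ) : (univ : Finset (E × Fin (m + 1))) = univ ×ˢ univ := by
  ext
  simp

/-! ### Lifting equivalences -/

/-- A divisor on `G` as a divisor on the subdivision. -/
def ext (m : ℕ) (D : V → ℤ) : V ⊕ E × Fin m → ℤ := Sum.elim D (fun _ => 0)

omit [Fintype V] [Fintype E] [DecidableEq V] [DecidableEq E] in
@[simp] theorem ext_inl (m : ℕ) (D : V → ℤ) (v : V) : ext (E := E) m D (Sum.inl v) = D v := rfl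

omit [Fintype V] [Fintype E] [DecidableEq V] [DecidableEq E] in
@[simp] theorem ext_inr (m : ℕ) (D : V → ℤ) (a : E × Fin m) : ext m D (Sum.inr a) = 0 := rfl

/-- Linear interpolation of a function on `G`. -/
def interp (m : ℕ) (f : V → ℤ) : V ⊕ E × Fin m → ℤ :=
  Sum.elim (fun v => (m + 1) * f v)
    (fun a => (m - a.2) * f (G.fst a.1) + (a.2 + 1) * f (G.snd a.1))

omit [Fintype V] [Fintype E] [DecidableEq V] [DecidableEq E] in
theorem interp_pos (m : ℕ) (f : V → ℤ) (e : E) {i : ℕ} (hi : i ≤ m + 1) :
    G.interp m f (G.pos m e i) = (m + 1 - i) * f (G.fst e) + i * f (G.snd e) := by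
  rcases Nat.eq_zero_or_pos i with rfl | h1
  · rw [G.pos_zero]
    simp [interp]
  · rcases Nat.lt_or_ge m i with h2 | h2
    · have h3 : i = m + 1 := by omega
      subst h3
      rw [G.pos_last]
      simp [interp]
    · rw [G.pos_interior e ⟨h1, h2⟩]
      simp only [interp, Sum.elim_inr]
      have h3 : ((i - 1 : ℕ) : ℤ) = i - 1 := by
        rw [Nat.cast_sub h1]
        simp
      rw [h3]
      ring

theorem lap_interp_inl (m : ℕ) (f : V → ℤ) (v : V) :
    (G.subdiv m).lapOn univ (G.interp m f) (Sum.inl v) = G.lapOn univ f v := by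
  rw [univ_prod, subdiv_lapOn_inl]
  unfold lapOn
  refine sum_congr rfl fun e _ => ?_
  rw [G.interp_pos m f e (by omega : 1 ≤ m + 1), G.interp_pos m f e (by omega : m ≤ m + 1)]
  simp only [interp, Sum.elim_inl]
  push_cast
  congr 1
  · split_ifs with h
    · rw [h]
      ring
    · rfl
  · split_ifs with h
    · rw [h]
      ring
    · rfl

theorem lap_interp_inr (m : ℕ) (f : V → ℤ) (e : E) (j : Fin m) :
    (G.subdiv m).lapOn univ (G.interp m f) (Sum.inr (e, j)) = 0 := by
  rw [univ_prod, subdiv_lapOn_inr, if_pos (mem_univ e), ← G.pos_mid m e j,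
    G.interp_pos m f e (by omega), G.interp_pos m f e (by omega), G.interp_pos m f e (by omega)]
  push_cast
  ring

theorem cov_ext {m : ℕ} {D : V → ℤ} {u : V} (h : G.Cov univ D u) :
    (G.subdiv m).Cov univ (ext m D) (Sum.inl u) := by
  obtain ⟨f, h1, h2⟩ := h
  refine ⟨G.interp m f, fun p => ?_, ?_⟩
  · rcases p with v | ⟨e, j⟩
    · rw [lap_interp_inl]
      exact h1 v
    · rw [lap_interp_inr]
      simp
  · rw [lap_interp_inl]
    exact h2

/-! ### Vertices of the graph determine ranks -/

/-- Two chips on the path of `e`, on the two sides of the position `t`, can be moved to `t`. -/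
theorem squeeze {m : ℕ} {M : V ⊕ E × Fin m → ℤ} {e : E} {t : ℕ} : ∀ (n i k : ℕ)
    (h : V ⊕ E × Fin m → ℤ), k = i + n → i ≤ t → t ≤ k → k ≤ m + 1 →
    (∀ p, 0 ≤ M p - (G.subdiv m).lapOn univ h p) →
    1 ≤ M (G.pos m e i) - (G.subdiv m).lapOn univ h (G.pos m e i) →
    1 ≤ M (G.pos m e k) - (G.subdiv m).lapOn univ h (G.pos m e k) →
    (G.subdiv m).Cov univ M (G.pos m e t) := by
  intro n
  induction n using Nat.strong_induction_on with
  | _ n ih =>
    intro i k h hk hit htk hkm h0 hi hk1
    by_cases h1 : i = t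
    · subst h1
      exact ⟨h, h0, hi⟩
    by_cases h2 : t = k
    · subst h2
      exact ⟨h, h0, hk1⟩
    have hlt1 : i < t := by omega
    have hlt2 : t < k := by omega
    -- fire everything except the open interval
    set ψ : V ⊕ E × Fin m → ℤ := Sum.elim (fun _ => 0)
      (fun a => if a.1 = e ∧ i < a.2.val + 1 ∧ a.2.val + 1 < k then -1 else 0) with hψ
    have hψpos : ∀ (e' : E) (l : ℕ), l ≤ m + 1 → ψ (G.pos m e' l) =
        if e' = e ∧ i < l ∧ l < k then -1 else 0 := by
      intro e' l hl
      rcases Nat.eq_zero_or_pos l with rfl | h3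
      · rw [G.pos_zero]
        simp [hψ]
      · rcases Nat.lt_or_ge m l with h4 | h4
        · have h5 : l = m + 1 := by omega
          subst h5
          rw [G.pos_last]
          simp only [hψ, Sum.elim_inl]
          rw [if_neg (by omega)]
        · rw [G.pos_interior e' ⟨h3, h4⟩]
          simp only [hψ, Sum.elim_inr]
          have h5 : l - 1 + 1 = l := by omega
          rw [h5]
    have hlapinr : ∀ (e' : E) (j : Fin m), (G.subdiv m).lapOn univ ψ (Sum.inr (e', j)) =
        2 * ψ (G.pos m e' (j + 1)) - ψ (G.pos m e' j) - ψ (G.pos m e' (j + 2)) := by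
      intro e' j
      rw [univ_prod, subdiv_lapOn_inr, if_pos (mem_univ _), G.pos_mid]
    have hlapinl : ∀ v : V, (G.subdiv m).lapOn univ ψ (Sum.inl v) ≤
        (if G.pos m e i = Sum.inl v then 1 else 0) + (if G.pos m e k = Sum.inl v then 1 else 0) := by
      intro v
      rw [univ_prod, subdiv_lapOn_inl]
      have h3 : ∀ e' ∈ (univ : Finset E), e' ≠ e →
          ((if G.fst e' = v then ψ (Sum.inl v) - ψ (G.pos m e' 1) else 0) +
          (if G.snd e' = v then ψ (Sum.inl v) - ψ (G.pos m e' m) else 0)) = 0 := by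
        intro e' _ hne
        have a1 : ψ (G.pos m e' 1) = 0 := by
          rw [hψpos e' 1 (by omega)]
          exact if_neg (fun h => hne h.1)
        have a2 : ψ (G.pos m e' m) = 0 := by
          rw [hψpos e' m (by omega)]
          exact if_neg (fun h => hne h.1)
        rw [a1, a2]
        simp [hψ]
      rw [sum_eq_single_of_mem e (mem_univ e) h3, hψpos e 1 (by omega), hψpos e m (by omega)]
      have h4 : ψ (Sum.inl v) = 0 := rfl
      rw [h4]
      have h5 : (if G.fst e = v then (0 : ℤ) - (if e = e ∧ i < 1 ∧ 1 < k then -1 else 0) else 0) ≤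
          (if G.pos m e i = Sum.inl v then 1 else 0) := by
        by_cases c1 : G.fst e = v
        · by_cases c2 : i = 0
          · rw [if_pos c1, if_pos ⟨rfl, by omega, by omega⟩, if_pos]
            · norm_num
            · rw [c2, G.pos_zero, c1]
          · rw [if_pos c1, if_neg (by omega)]
            split_ifs <;> norm_num
        · rw [if_neg c1]
          split_ifs <;> norm_num
      have h6 : (if G.snd e = v then (0 : ℤ) - (if e = e ∧ i < m ∧ m < k then -1 else 0) else 0) ≤
          (if G.pos m e k = Sum.inl v then 1 else 0) := by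
        by_cases c1 : G.snd e = v
        · by_cases c2 : k = m + 1
          · rw [if_pos c1, if_pos ⟨rfl, by omega, by omega⟩, if_pos]
            · norm_num
            · rw [c2, G.pos_last, c1]
          · rw [if_pos c1, if_neg (by omega)]
            split_ifs <;> norm_num
        · rw [if_neg c1]
          split_ifs <;> norm_num
      exact add_le_add h5 h6
    have hne : G.pos m e i ≠ G.pos m e k := by
      intro heq
      rcases hp : G.pos m e k with v | ⟨e', j⟩
      · rw [hp] at heq
        rcases G.pos_eq_inl hp with c | c <;> rcases G.pos_eq_inl heq with d | d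
        · omega
        · omega
        · exact G.loopless e (d.2.trans c.2.symm)
        · omega
      · rw [hp] at heq
        have c := G.pos_eq_inr hp
        have d := G.pos_eq_inr heq
        omega
    have h0' : ∀ p, 0 ≤ M p - (G.subdiv m).lapOn univ (h + ψ) p := by
      intro p
      rw [lapOn_add]
      rcases p with v | ⟨e', j⟩
      · have h3 := hlapinl v
        by_cases c1 : G.pos m e i = Sum.inl v
        · have c2 : G.pos m e k ≠ Sum.inl v := fun c => hne (c1.trans c.symm)
          rw [if_pos c1, if_neg c2] at h3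
          rw [c1] at hi
          linarith
        · rw [if_neg c1] at h3
          by_cases c2 : G.pos m e k = Sum.inl v
          · rw [if_pos c2] at h3
            rw [c2] at hk1
            linarith
          · rw [if_neg c2] at h3
            linarith [h0 (Sum.inl v)]
      · have h3 := hlapinr e' j
        have hj := j.2
        rw [hψpos e' _ (by omega), hψpos e' _ (by omega), hψpos e' _ (by omega)] at h3
        by_cases ce : e' = e
        · subst ce
          by_cases c1 : i = j + 1
          · have c2 : G.pos m e' i = Sum.inr (e', j) := by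
              rw [c1, G.pos_mid]
            rw [c2] at hi
            rw [if_neg (by omega), if_neg (by omega), if_pos ⟨rfl, by omega, by omega⟩] at h3
            linarith
          · by_cases c3 : k = j + 1
            · have c2 : G.pos m e' k = Sum.inr (e', j) := by
                rw [c3, G.pos_mid]
              rw [c2] at hk1
              rw [if_neg (by omega), if_pos ⟨rfl, by omega, by omega⟩, if_neg (by omega)] at h3
              linarith
            · have h4 : (G.subdiv m).lapOn univ ψ (Sum.inr (e', j)) ≤ 0 := by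
                simp only [true_and] at h3
                rw [h3]
                split_ifs <;> first | omega | norm_num
              linarith [h0 (Sum.inr (e', j))]
        · rw [if_neg (fun c => ce c.1), if_neg (fun c => ce c.1), if_neg (fun c => ce c.1)] at h3
          linarith [h0 (Sum.inr (e', j))]
    have hlapi : (G.subdiv m).lapOn univ ψ (G.pos m e (i + 1)) ≤ -1 := by
      have c1 : G.pos m e (i + 1) = Sum.inr (e, ⟨i, by omega⟩) :=
        G.pos_mid m e ⟨i, by omega⟩
      rw [c1, hlapinr, hψpos e _ (by omega), hψpos e _ (by omega), hψpos e _ (by omega)]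
      simp only [true_and]
      rw [if_pos ⟨by omega, by omega⟩, if_neg (by omega)]
      split_ifs <;> norm_num
    have hlapk : (G.subdiv m).lapOn univ ψ (G.pos m e (k - 1)) ≤ -1 := by
      have c1 : G.pos m e (k - 1) = Sum.inr (e, ⟨k - 2, by omega⟩) := by
        rw [← G.pos_mid m e ⟨k - 2, by omega⟩]
        congr 1
        simp only
        omega
      rw [c1, hlapinr, hψpos e _ (by simp only; omega), hψpos e _ (by simp only; omega),
        hψpos e _ (by simp only; omega)]
      simp only [true_and]
      rw [if_pos (c := i < k - 2 + 1 ∧ k - 2 + 1 < k) ⟨by omega, by omega⟩,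
        if_neg (c := i < k - 2 + 2 ∧ k - 2 + 2 < k) (by omega)]
      split_ifs <;> norm_num
    refine ih (k - 1 - (i + 1)) (by omega) (i + 1) (k - 1) (h + ψ) (by omega) (by omega)
      (by omega) (by omega) h0' ?_ ?_
    · rw [lapOn_add]
      linarith [h0 (G.pos m e (i + 1))]
    · rw [lapOn_add]
      linarith [h0 (G.pos m e (k - 1))]

/-- If both ends of an edge can be reached, so can the inner vertices of its path. -/
theorem luo {m : ℕ} {M : V ⊕ E × Fin m → ℤ} {e : E}
    (hu : (G.subdiv m).Cov univ M (Sum.inl (G.fst e)))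
    (hv : (G.subdiv m).Cov univ M (Sum.inl (G.snd e))) (j : Fin m) :
    (G.subdiv m).Cov univ M (Sum.inr (e, j)) := by
  obtain ⟨f, f0, f1⟩ := hu
  obtain ⟨g0, g00, g01⟩ := hv
  have hj := j.2
  set t : ℕ := j + 1 with ht
  set p0 := G.pos m e t with hp0
  set g : V ⊕ E × Fin m → ℤ := fun p => g0 p + (f p0 - g0 p0) with hg
  have hgl : ∀ p, (G.subdiv m).lapOn univ g p = (G.subdiv m).lapOn univ g0 p := fun p =>
    (G.subdiv m).lapOn_shift univ g0 _ p
  have hgp : g p0 = f p0 := by
    simp only [hg]
    ring
  set h : V ⊕ E × Fin m → ℤ := fun p => max (f p) (g p) with hh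
  -- firing the maximum
  have hle_f : ∀ p, g p ≤ f p → (G.subdiv m).lapOn univ h p ≤ (G.subdiv m).lapOn univ f p := by
    intro p hp
    unfold lapOn
    refine sum_le_sum fun a _ => ?_
    have h1 : h p = f p := max_eq_left hp
    have h2 : f ((G.subdiv m).snd a) ≤ h ((G.subdiv m).snd a) := le_max_left _ _
    have h3 : f ((G.subdiv m).fst a) ≤ h ((G.subdiv m).fst a) := le_max_left _ _
    split_ifs <;> linarith
  have hle_g : ∀ p, f p ≤ g p → (G.subdiv m).lapOn univ h p ≤ (G.subdiv m).lapOn univ g p := by
    intro p hp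
    unfold lapOn
    refine sum_le_sum fun a _ => ?_
    have h1 : h p = g p := max_eq_right hp
    have h2 : g ((G.subdiv m).snd a) ≤ h ((G.subdiv m).snd a) := le_max_right _ _
    have h3 : g ((G.subdiv m).fst a) ≤ h ((G.subdiv m).fst a) := le_max_right _ _
    split_ifs <;> linarith
  have h0 : ∀ p, 0 ≤ M p - (G.subdiv m).lapOn univ h p := by
    intro p
    rcases le_total (g p) (f p) with hp | hp
    · linarith [hle_f p hp, f0 p]
    · have := hle_g p hp
      rw [hgl] at this
      linarith [g00 p]
  -- value of the divisor at an inner position where the functions agree and a neighbour where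
  -- they do not
  have hkink : ∀ (l : ℕ), 1 ≤ l → l ≤ m → f (G.pos m e l) = g (G.pos m e l) →
      (f (G.pos m e (l - 1)) ≠ g (G.pos m e (l - 1)) ∨
        f (G.pos m e (l + 1)) ≠ g (G.pos m e (l + 1))) →
      1 ≤ M (G.pos m e l) - (G.subdiv m).lapOn univ h (G.pos m e l) := by
    intro l hl1 hl2 heq hne
    have c1 : G.pos m e l = Sum.inr (e, ⟨l - 1, by omega⟩) := G.pos_interior e ⟨hl1, hl2⟩
    have hlap : ∀ φ : V ⊕ E × Fin m → ℤ, (G.subdiv m).lapOn univ φ (G.pos m e l) =
        2 * φ (G.pos m e l) - φ (G.pos m e (l - 1)) - φ (G.pos m e (l + 1)) := by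
      intro φ
      rw [c1, univ_prod, subdiv_lapOn_inr, if_pos (mem_univ _)]
      simp only
      have c2 : l - 1 + 2 = l + 1 := by omega
      rw [c2]
    have e1 := f0 (G.pos m e l)
    have e2 := g00 (G.pos m e l)
    rw [← hgl] at e2
    rw [hlap] at e1 e2 ⊢
    have e3 : h (G.pos m e l) = f (G.pos m e l) := max_eq_left heq.symm.le
    have e4 : f (G.pos m e (l - 1)) ≤ h (G.pos m e (l - 1)) := le_max_left _ _
    have e5 : g (G.pos m e (l - 1)) ≤ h (G.pos m e (l - 1)) := le_max_right _ _
    have e6 : f (G.pos m e (l + 1)) ≤ h (G.pos m e (l + 1)) := le_max_left _ _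
    have e7 : g (G.pos m e (l + 1)) ≤ h (G.pos m e (l + 1)) := le_max_right _ _
    rw [e3]
    rcases hne with hne | hne
    · rcases lt_or_gt_of_ne hne with hlt | hlt <;> omega
    · rcases lt_or_gt_of_ne hne with hlt | hlt <;> omega
  -- left chip
  have hleft : ∃ i, i ≤ t ∧ 1 ≤ M (G.pos m e i) - (G.subdiv m).lapOn univ h (G.pos m e i) := by
    have key : ∀ n, n ≤ t → f (G.pos m e (t - n)) = g (G.pos m e (t - n)) ∨
        ∃ i, i ≤ t ∧ 1 ≤ M (G.pos m e i) - (G.subdiv m).lapOn univ h (G.pos m e i) := by
      intro n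
      induction n with
      | zero =>
        intro _
        left
        exact hgp.symm
      | succ n ih =>
        intro hn
        rcases ih (by omega) with h1 | h1
        · by_cases h2 : f (G.pos m e (t - (n + 1))) = g (G.pos m e (t - (n + 1)))
          · exact Or.inl h2
          · right
            refine ⟨t - n, by omega, hkink (t - n) (by omega) (by omega) h1 (Or.inl ?_)⟩
            have c : t - n - 1 = t - (n + 1) := by omega
            rw [c]
            exact h2
        · exact Or.inr h1
    rcases key t le_rfl with h1 | h1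
    · refine ⟨0, by omega, ?_⟩
      rw [Nat.sub_self] at h1
      rw [G.pos_zero] at h1 ⊢
      linarith [hle_f _ h1.symm.le]
    · exact h1
  have hright : ∃ k, t ≤ k ∧ k ≤ m + 1 ∧
      1 ≤ M (G.pos m e k) - (G.subdiv m).lapOn univ h (G.pos m e k) := by
    have key : ∀ n, t + n ≤ m + 1 → f (G.pos m e (t + n)) = g (G.pos m e (t + n)) ∨
        ∃ k, t ≤ k ∧ k ≤ m + 1 ∧
          1 ≤ M (G.pos m e k) - (G.subdiv m).lapOn univ h (G.pos m e k) := by
      intro n
      induction n with
      | zero =>
        intro _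
        left
        exact hgp.symm
      | succ n ih =>
        intro hn
        rcases ih (by omega) with h1 | h1
        · by_cases h2 : f (G.pos m e (t + (n + 1))) = g (G.pos m e (t + (n + 1)))
          · exact Or.inl h2
          · right
            refine ⟨t + n, by omega, by omega,
              hkink (t + n) (by omega) (by omega) h1 (Or.inr ?_)⟩
            exact h2
        · exact Or.inr h1
    rcases key (m + 1 - t) (by omega) with h1 | h1
    · refine ⟨m + 1, by omega, le_rfl, ?_⟩
      have c : t + (m + 1 - t) = m + 1 := by omega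
      rw [c] at h1
      rw [G.pos_last] at h1 ⊢
      have := hle_g _ h1.le
      rw [hgl] at this
      linarith
    · exact h1
  obtain ⟨i, hi, hi1⟩ := hleft
  obtain ⟨k, hk, hkm, hk1⟩ := hright
  rw [← G.pos_mid m e j]
  exact G.squeeze (k - i) i k h (by omega) hi hk hkm h0 hi1 hk1

theorem luo_all {m : ℕ} {M : V ⊕ E × Fin m → ℤ}
    (h : ∀ u : V, (G.subdiv m).Cov univ M (Sum.inl u)) (p : V ⊕ E × Fin m) :
    (G.subdiv m).Cov univ M p := by
  rcases p with u | ⟨e, j⟩
  · exact h u
  · exact G.luo (h _) (h _) j

theorem cov_swap {M : V → ℤ} {p q : V} (h : G.Cov univ (M - Pi.single p 1) q) :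
    G.Cov univ (M - Pi.single q 1) p := by
  obtain ⟨f, h1, h2⟩ := h
  refine ⟨f, fun r => ?_, ?_⟩
  · have h3 := h1 r
    simp only [Pi.sub_apply] at h3 h2 ⊢
    by_cases hrq : r = q
    · subst hrq
      have h4 := single_nonneg p r
      simp only [Pi.zero_apply] at h4
      rw [Pi.single_eq_same]
      linarith
    · rw [Pi.single_eq_of_ne hrq]
      have h4 := single_nonneg p r
      simp only [Pi.zero_apply] at h4
      linarith
  · have h3 := h1 p
    simp only [Pi.sub_apply, Pi.single_eq_same] at h3 h2 ⊢
    by_cases hpq : p = q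
    · subst hpq
      rw [Pi.single_eq_same] at h2 ⊢
      exact h2
    · rw [Pi.single_eq_of_ne hpq]
      linarith

theorem ext_sub_single (m : ℕ) (D : V → ℤ) (u : V) :
    ext (E := E) m (D - Pi.single u 1) = ext m D - Pi.single (Sum.inl u) 1 := by
  funext p
  rcases p with v | a
  · simp only [ext_inl, Pi.sub_apply]
    by_cases h : v = u
    · subst h
      simp
    · rw [Pi.single_eq_of_ne h, Pi.single_eq_of_ne (fun h' => h (Sum.inl.inj h'))]
  · simp only [ext_inr, Pi.sub_apply]
    rw [Pi.single_eq_of_ne (by simp)]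
    simp

/-- A divisor of rank at least two on `G` has rank at least two on the subdivision. -/
theorem rank_two_ext {m : ℕ} {D : V → ℤ} (h : G.RankAtLeast D 2) :
    (G.subdiv m).RankAtLeast (ext m D) 2 := by
  have h1 : ∀ u v : V, G.Cov univ (D - Pi.single u 1) v := fun u v =>
    G.rankAtLeast_one_iff.1 (G.rankAtLeast_succ.1 h u) v
  have h2 : ∀ (u : V) (q : V ⊕ E × Fin m),
      (G.subdiv m).Cov univ (ext m D - Pi.single (Sum.inl u) 1) q := by
    intro u q
    refine G.luo_all (fun v => ?_) q
    rw [← ext_sub_single]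
    exact G.cov_ext (h1 u v)
  have h3 : ∀ p q : V ⊕ E × Fin m, (G.subdiv m).Cov univ (ext m D - Pi.single q 1) p := by
    intro p q
    refine G.luo_all (fun u => ?_) p
    exact (G.subdiv m).cov_swap (h2 u q)
  exact (G.subdiv m).rankAtLeast_succ.2 fun q => (G.subdiv m).rankAtLeast_one_iff.2 fun p => h3 p q

end MGraph

end Pool.Agent.V11142.QB
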