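import Pool.Agent.V11142.QB.StructB
import Pool.Agent.V11142.QB.SubA

/-!
# Equal subdivisions: the lower bound for the gonality
-/

set_option autoImplicit false

namespace Pool.Agent.V11142.QB

open Finset

namespace MGraph

variable {V E : Type} [Fintype V] [Fintype E] [DecidableEq V] [DecidableEq E] {G : MGraph V E}

/-- The edges inside `S`. -/
def inside (G : MGraph V E) (S : Finset V) : Finset E :=
  univ.filter (fun e => G.fst e ∈ S ∧ G.snd e ∈ S)

theorem mem_inside {S : Finset V} {e : E} : e ∈ inside G S ↔ G.fst e ∈ S ∧ G.snd e ∈ S := by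
  simp [inside]

/-- A divisor reaching all vertices of `S` inside the subdivision of `G[S]` has degree at least
`|S|`. -/
def Phi (G : MGraph V E) (m : ℕ) (S : Finset V) : Prop :=
  ∀ A : V ⊕ E × Fin m → ℤ, (∀ p, 0 ≤ A p) →
    (∀ u ∈ S, (G.subdiv m).Cov (inside G S ×ˢ univ) A (Sum.inl u)) → (S.card : ℤ) ≤ ∑ p, A p

theorem telescope (s : ℕ → ℤ) (n : ℕ) : |s 0 - s n| ≤ ∑ i ∈ range n, |s i - s (i + 1)| := by
  induction n with
  | zero => simp
  | succ n ih =>
    rw [sum_range_succ]
    have : s 0 - s (n + 1) = (s 0 - s n) + (s n - s (n + 1)) := by ring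
    rw [this]
    exact (abs_add_le _ _).trans (by linarith)

/-- Cuts given by level sets are not larger than the degree. -/
theorem cut_bound {m : ℕ} {F : Finset E} {A h : V ⊕ E × Fin m → ℤ} (h0 : ∀ p, 0 ≤ A p)
    (hA : ∀ p, 0 ≤ A p - (G.subdiv m).lapOn (F ×ˢ univ) h p) (j : ℤ) :
    ∑ e ∈ F, |(if j ≤ h (Sum.inl (G.fst e)) then (1 : ℤ) else 0) -
      (if j ≤ h (Sum.inl (G.snd e)) then 1 else 0)| ≤ ∑ p, A p := by
  set τ : V ⊕ E × Fin m → ℤ := fun p => if j ≤ h p then 1 else 0 with hτ
  have h1 : ∑ p, τ p * (G.subdiv m).lapOn (F ×ˢ univ) h p ≤ ∑ p, A p := by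
    refine sum_le_sum fun p _ => ?_
    simp only [hτ]
    split_ifs
    · linarith [hA p]
    · linarith [h0 p]
  refine le_trans ?_ h1
  rw [(G.subdiv m).sum_mul_lapOn, sum_product]
  refine sum_le_sum fun e _ => ?_
  have h2 : ∀ i : Fin (m + 1), |τ (G.pos m e i) - τ (G.pos m e (i + 1))| ≤
      (τ ((G.subdiv m).fst (e, i)) - τ ((G.subdiv m).snd (e, i))) *
        (h ((G.subdiv m).fst (e, i)) - h ((G.subdiv m).snd (e, i))) := by
    intro i
    have e1 : (G.subdiv m).fst (e, i) = G.pos m e i := rfl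
    have e2 : (G.subdiv m).snd (e, i) = G.pos m e (i + 1) := rfl
    rw [e1, e2]
    simp only [hτ]
    by_cases c1 : j ≤ h (G.pos m e i) <;> by_cases c2 : j ≤ h (G.pos m e (i + 1))
    · rw [if_pos c1, if_pos c2]
      simp
    · rw [if_pos c1, if_neg c2]
      simp only [sub_zero, abs_one, one_mul]
      omega
    · rw [if_neg c1, if_pos c2]
      simp only [zero_sub, abs_neg, abs_one, neg_mul, one_mul]
      omega
    · rw [if_neg c1, if_neg c2]
      simp
  refine le_trans ?_ (sum_le_sum fun i _ => h2 i)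
  have h3 := telescope (fun i => τ (G.pos m e i)) (m + 1)
  rw [← Fin.sum_univ_eq_sum_range (fun i => |τ (G.pos m e i) - τ (G.pos m e (i + 1))|)] at h3
  simp only [G.pos_zero, G.pos_last] at h3
  exact h3

theorem sum_mult_le {S' X : Finset V} (hX : X ⊆ S') (P N : Finset V) (hP : P ⊆ X) (hN : N ⊆ X)
    (τ : V → ℤ) (hτP : ∀ a ∈ P, τ a = 1) (hτN : ∀ b ∈ N, τ b = 0) :
    ∑ a ∈ P, ∑ b ∈ N, G.mult a b ≤ ∑ e ∈ inside G S', |τ (G.fst e) - τ (G.snd e)| := by
  have h1 : ∑ a ∈ P, ∑ b ∈ N, G.mult a b =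
      ∑ e, ((if G.fst e ∈ P ∧ G.snd e ∈ N then (1 : ℤ) else 0) +
        (if G.snd e ∈ P ∧ G.fst e ∈ N then 1 else 0)) := by
    unfold mult
    have h2 : ∀ a ∈ P, ∑ b ∈ N, ∑ e, ((if G.fst e = a ∧ G.snd e = b then (1 : ℤ) else 0) +
        (if G.snd e = a ∧ G.fst e = b then 1 else 0)) =
        ∑ e, ((if G.fst e = a ∧ G.snd e ∈ N then (1 : ℤ) else 0) +
        (if G.snd e = a ∧ G.fst e ∈ N then 1 else 0)) := by
      intro a _
      rw [sum_comm]
      refine sum_congr rfl fun e _ => ?_
      rw [sum_add_distrib]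
      congr 1
      · by_cases c : G.fst e = a
        · simp [c]
        · simp [c]
      · by_cases c : G.snd e = a
        · simp [c]
        · simp [c]
    rw [sum_congr rfl h2, sum_comm]
    refine sum_congr rfl fun e _ => ?_
    rw [sum_add_distrib]
    congr 1
    · by_cases c : G.snd e ∈ N
      · simp [c]
      · simp [c]
    · by_cases c : G.fst e ∈ N
      · simp [c]
      · simp [c]
  rw [h1, ← sum_subset (subset_univ (inside G S'))]
  · refine sum_le_sum fun e _ => ?_
    by_cases c1 : G.fst e ∈ P ∧ G.snd e ∈ N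
    · rw [if_pos c1, hτP _ c1.1, hτN _ c1.2]
      have c2 : ¬ (G.snd e ∈ P ∧ G.fst e ∈ N) := by
        intro c
        have a1 := hτP _ c.1
        have a2 := hτN _ c1.2
        omega
      rw [if_neg c2]
      simp
    · rw [if_neg c1]
      by_cases c2 : G.snd e ∈ P ∧ G.fst e ∈ N
      · rw [if_pos c2, hτP _ c2.1, hτN _ c2.2]
        simp
      · rw [if_neg c2]
        have := abs_nonneg (τ (G.fst e) - τ (G.snd e))
        linarith
  · intro e _ he
    have hXS : ∀ a, a ∈ P ∨ a ∈ N → a ∈ S' := fun a ha => hX (ha.elim (fun h => hP h) fun h => hN h)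
    rw [if_neg (fun c => he (mem_inside.2 ⟨hXS _ (Or.inl c.1), hXS _ (Or.inr c.2)⟩)),
      if_neg (fun c => he (mem_inside.2 ⟨hXS _ (Or.inr c.2), hXS _ (Or.inl c.1)⟩))]
    rfl

/-- Rigidity: the hub and its block are always fired together. -/
theorem rigid {m : ℕ} {S B : Finset V} {x : V} (hx : x ∈ S) (hd : Disjoint S B)
    (h1 : ∀ y ∈ B, G.mult x y = S.card + 1) (h2 : ∀ y ∈ B, ∀ z ∈ B, y ≠ z → G.mult y z = 1)
    {A h : V ⊕ E × Fin m → ℤ} (h0 : ∀ p, 0 ≤ A p)
    (hA : ∀ p, 0 ≤ A p - (G.subdiv m).lapOn (inside G (S ∪ B) ×ˢ univ) h p)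
    (hdeg : ∑ p, A p < (S ∪ B).card) : ∀ y ∈ B, h (Sum.inl y) = h (Sum.inl x) := by
  intro y hy
  by_contra hne
  have hxB : x ∉ B := fun h => disjoint_left.1 hd hx h
  set j := max (h (Sum.inl y)) (h (Sum.inl x)) with hj
  have hcut := cut_bound h0 hA j
  set τ : V → ℤ := fun v => if j ≤ h (Sum.inl v) then 1 else 0 with hτ
  set P := (insert x B).filter (fun v => j ≤ h (Sum.inl v)) with hPd
  set N := (insert x B).filter (fun v => ¬ j ≤ h (Sum.inl v)) with hNd
  have hXS : insert x B ⊆ S ∪ B := by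
    intro v hv
    rcases mem_insert.1 hv with rfl | hv
    · exact mem_union_left _ hx
    · exact mem_union_right _ hv
  have hsm := sum_mult_le (G := G) hXS P N (filter_subset _ _) (filter_subset _ _) τ
    (fun a ha => if_pos (mem_filter.1 ha).2) (fun b hb => if_neg (mem_filter.1 hb).2)
  have hle : ∑ a ∈ P, ∑ b ∈ N, G.mult a b ≤ ∑ p, A p := hsm.trans hcut
  have hcard : ((S ∪ B).card : ℤ) = S.card + B.card := by
    rw [card_union_of_disjoint hd]
    push_cast
    ring
  have hsplit : ((B.filter (fun v => j ≤ h (Sum.inl v))).card : ℤ) +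
      (B.filter (fun v => ¬ j ≤ h (Sum.inl v))).card = B.card := by
    exact_mod_cast card_filter_add_card_filter_not (s := B) (fun v => j ≤ h (Sum.inl v))
  set PB := B.filter (fun v => j ≤ h (Sum.inl v)) with hPB
  set NB := B.filter (fun v => ¬ j ≤ h (Sum.inl v)) with hNB
  have hPNB : ∀ a ∈ PB, ∑ b ∈ NB, G.mult a b = NB.card := by
    intro a ha
    rw [sum_congr rfl (g := fun _ => (1 : ℤ)) fun b hb => ?_]
    · simp
    · refine h2 a (mem_filter.1 ha).1 b (mem_filter.1 hb).1 ?_
      rintro rfl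
      exact (mem_filter.1 hb).2 (mem_filter.1 ha).2
  have hs0 : (0 : ℤ) ≤ S.card := by positivity
  by_cases hxj : j ≤ h (Sum.inl x)
  · have hyj : ¬ j ≤ h (Sum.inl y) := by
      intro h3
      have h4 : h (Sum.inl x) ≤ j := le_max_right _ _
      have h5 : h (Sum.inl y) ≤ j := le_max_left _ _
      exact hne (by omega)
    have hP' : P = insert x PB := by
      rw [hPd, filter_insert, if_pos hxj]
    have hN' : N = NB := by
      rw [hNd, filter_insert, if_neg (not_not.2 hxj)]
    have hxPB : x ∉ PB := fun h => hxB (mem_filter.1 h).1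
    rw [hP', hN', sum_insert hxPB, sum_congr rfl hPNB] at hle
    have h3 : ∑ b ∈ NB, G.mult x b = NB.card * (S.card + 1) := by
      rw [sum_congr rfl fun b hb => h1 b (mem_filter.1 hb).1, sum_const, nsmul_eq_mul]
    rw [h3] at hle
    simp only [sum_const, nsmul_eq_mul] at hle
    have h4 : (1 : ℤ) ≤ NB.card := by
      exact_mod_cast card_pos.2 ⟨y, mem_filter.2 ⟨hy, hyj⟩⟩
    have h5 : (0 : ℤ) ≤ PB.card := by positivity
    nlinarith [mul_nonneg (by linarith : (0 : ℤ) ≤ (NB.card : ℤ) - 1)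
      (by linarith : (0 : ℤ) ≤ (S.card : ℤ) + PB.card)]
  · have hyj : j ≤ h (Sum.inl y) := by
      rcases le_total (h (Sum.inl y)) (h (Sum.inl x)) with h3 | h3
      · exact absurd (max_eq_right h3 : j = _).le hxj
      · exact (max_eq_left h3 : j = _).le
    have hP' : P = PB := by
      rw [hPd, filter_insert, if_neg hxj]
    have hN' : N = insert x NB := by
      rw [hNd, filter_insert, if_pos hxj]
    have hxNB : x ∉ NB := fun h => hxB (mem_filter.1 h).1
    have h3 : ∀ a ∈ PB, ∑ b ∈ insert x NB, G.mult a b = S.card + 1 + NB.card := by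
      intro a ha
      rw [sum_insert hxNB, hPNB a ha, G.mult_comm, h1 a (mem_filter.1 ha).1]
    rw [hP', hN', sum_congr rfl h3] at hle
    simp only [sum_const, nsmul_eq_mul] at hle
    have h4 : (1 : ℤ) ≤ PB.card := by
      exact_mod_cast card_pos.2 ⟨y, mem_filter.2 ⟨hy, hyj⟩⟩
    have h5 : (0 : ℤ) ≤ NB.card := by positivity
    nlinarith [mul_nonneg (by linarith : (0 : ℤ) ≤ (PB.card : ℤ) - 1)
      (by linarith : (0 : ℤ) ≤ (S.card : ℤ) + NB.card)]

theorem phi_base (m : ℕ) (v : V) : Phi G m {v} := by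
  intro A h0 hcov
  obtain ⟨f, h1, h2⟩ := hcov v (mem_singleton_self v)
  have h3 : ∑ p, A p = ∑ p, (A p - (G.subdiv m).lapOn (inside G {v} ×ˢ univ) f p) := by
    rw [sum_sub_distrib, (G.subdiv m).sum_lapOn]
    ring
  rw [h3, card_singleton]
  refine le_trans ?_ (single_le_sum (f := fun p => A p -
    (G.subdiv m).lapOn (inside G {v} ×ˢ univ) f p) (fun p _ => h1 p) (mem_univ (Sum.inl v)))
  exact_mod_cast h2

theorem phi_step {m : ℕ} {S B : Finset V} {x : V} (hx : x ∈ S) (hd : Disjoint S B)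
    (h1 : ∀ y ∈ B, G.mult x y = S.card + 1) (h2 : ∀ y ∈ B, ∀ z ∈ B, y ≠ z → G.mult y z = 1)
    (h3 : ∀ u ∈ S, u ≠ x → ∀ y ∈ B, G.mult u y = 0) (hPhi : Phi G m S) : Phi G m (S ∪ B) := by
  classical
  intro A hA0 hcov
  by_contra hlt
  push Not at hlt
  set S' := S ∪ B with hS'
  set F' : Finset (E × Fin (m + 1)) := inside G S' ×ˢ univ with hF'
  set Γ := G.subdiv m with hΓ
  -- the number of chips on `S'`
  have hbound : ∀ g : V ⊕ E × Fin m → ℤ, (∀ p, 0 ≤ g p) → ∑ u ∈ S', g (Sum.inl u) ≤ ∑ p, g p := by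
    intro g hg
    rw [Fintype.sum_sum_type]
    have e1 : ∑ u ∈ S', g (Sum.inl u) ≤ ∑ u, g (Sum.inl u) :=
      sum_le_sum_of_subset_of_nonneg (subset_univ _) fun u _ _ => hg _
    have e2 : 0 ≤ ∑ a : E × Fin m, g (Sum.inr a) := sum_nonneg fun a _ => hg _
    linarith
  have hdeg : ∀ f : V ⊕ E × Fin m → ℤ, ∑ p, (A p - Γ.lapOn F' f p) = ∑ p, A p := by
    intro f
    rw [sum_sub_distrib, Γ.sum_lapOn]
    ring
  obtain ⟨f0, hf0, hmax0⟩ : ∃ f0 : V ⊕ E × Fin m → ℤ, (∀ p, 0 ≤ A p - Γ.lapOn F' f0 p) ∧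
      ∀ f : V ⊕ E × Fin m → ℤ, (∀ p, 0 ≤ A p - Γ.lapOn F' f p) →
        ∑ u ∈ S', (A (Sum.inl u) - Γ.lapOn F' f (Sum.inl u)) ≤
          ∑ u ∈ S', (A (Sum.inl u) - Γ.lapOn F' f0 (Sum.inl u)) := by
    have hex : ∃ n : ℕ, ∃ f : V ⊕ E × Fin m → ℤ, (∀ p, 0 ≤ A p - Γ.lapOn F' f p) ∧
        ∑ p, A p - ∑ u ∈ S', (A (Sum.inl u) - Γ.lapOn F' f (Sum.inl u)) = n := by
      have hf : ∀ p, 0 ≤ A p - Γ.lapOn F' 0 p := fun p => by
        rw [Γ.lapOn_zero]
        linarith [hA0 p]
      have hb := hbound (fun p => A p - Γ.lapOn F' 0 p) hf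
      rw [hdeg] at hb
      exact ⟨(∑ p, A p - ∑ u ∈ S', (A (Sum.inl u) - Γ.lapOn F' 0 (Sum.inl u))).toNat, 0, hf, by
        rw [Int.toNat_of_nonneg (by linarith)]⟩
    obtain ⟨f0, hf0, hf0n⟩ := Nat.find_spec hex
    refine ⟨f0, hf0, fun f hf => ?_⟩
    by_contra hgt
    push Not at hgt
    have hb := hbound (fun p => A p - Γ.lapOn F' f p) hf
    rw [hdeg] at hb
    refine Nat.find_min hex (m := (∑ p, A p -
      ∑ u ∈ S', (A (Sum.inl u) - Γ.lapOn F' f (Sum.inl u))).toNat) ?_ ⟨f, hf, ?_⟩
    · omega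
    · rw [Int.toNat_of_nonneg (by linarith)]
  set A0 : V ⊕ E × Fin m → ℤ := fun p => A p - Γ.lapOn F' f0 p with hA0d
  have hA00 : ∀ p, 0 ≤ A0 p := hf0
  have hA0deg : ∑ p, A0 p = ∑ p, A p := hdeg f0
  have hmax : ∀ f : V ⊕ E × Fin m → ℤ, (∀ p, 0 ≤ A0 p - Γ.lapOn F' f p) →
      ∑ u ∈ S', (A0 (Sum.inl u) - Γ.lapOn F' f (Sum.inl u)) ≤ ∑ u ∈ S', A0 (Sum.inl u) := by
    intro f hf
    have h5 := hmax0 (f0 + f) (fun p => by
      rw [Γ.lapOn_add]
      have := hf p
      simp only [hA0d] at this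
      linarith)
    refine le_trans (le_of_eq (sum_congr rfl fun u _ => ?_)) h5
    rw [Γ.lapOn_add]
    simp only [hA0d]
    ring
  have hcov0 : ∀ u ∈ S', Γ.Cov F' A0 (Sum.inl u) := by
    intro u hu
    refine Γ.cov_of_equiv (hcov u hu) (-f0) fun p => ?_
    rw [Γ.lapOn_neg]
    simp only [hA0d]
    linarith
  have hdeg0 : ∑ p, A0 p < (S ∪ B).card := by
    rw [hA0deg]
    exact hlt
  -- block edges
  have hother : ∀ e ∈ inside G S', (G.fst e ∈ B ∨ G.snd e ∈ B) →
      (G.fst e = x ∨ G.fst e ∈ B) ∧ (G.snd e = x ∨ G.snd e ∈ B) := by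
    intro e he heB
    obtain ⟨he1, he2⟩ := mem_inside.1 he
    constructor
    · by_cases c : G.fst e ∈ B
      · exact Or.inr c
      · have c1 : G.fst e ∈ S := (mem_union.1 he1).resolve_right c
        have c2 : G.snd e ∈ B := heB.resolve_left c
        left
        by_contra c3
        have c4 := h3 _ c1 c3 _ c2
        have c5 := G.mult_pos_of_edge (e := e) (Or.inl ⟨rfl, rfl⟩)
        omega
    · by_cases c : G.snd e ∈ B
      · exact Or.inr c
      · have c1 : G.snd e ∈ S := (mem_union.1 he2).resolve_right c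
        have c2 : G.fst e ∈ B := heB.resolve_right c
        left
        by_contra c3
        have c4 := h3 _ c1 c3 _ c2
        have c5 := G.mult_pos_of_edge (e := e) (Or.inr ⟨rfl, rfl⟩)
        omega
  have hstar : ∀ h : V ⊕ E × Fin m → ℤ, (∀ p, 0 ≤ A0 p - Γ.lapOn F' h p) →
      ∀ e ∈ inside G S', (G.fst e ∈ B ∨ G.snd e ∈ B) →
      h (G.pos m e 1) ≤ h (Sum.inl x) ∧ h (G.pos m e m) ≤ h (Sum.inl x) := by
    intro h hh
    have hrig := rigid (m := m) hx hd h1 h2 hA00 hh hdeg0
    set c0 := h (Sum.inl x) with hc0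
    have hval : ∀ v, (v = x ∨ v ∈ B) → h (Sum.inl v) = c0 := by
      rintro v (rfl | hv)
      · rfl
      · exact hrig v hv
    set k : V ⊕ E × Fin m → ℤ := Sum.elim (fun _ => 0)
      (fun a => if a.1 ∈ inside G S' ∧ (G.fst a.1 ∈ B ∨ G.snd a.1 ∈ B) then
        max (h (Sum.inr a) - c0) 0 else 0) with hk
    have hk0 : ∀ p, 0 ≤ k p := by
      intro p
      rcases p with v | a
      · exact le_rfl
      · simp only [hk, Sum.elim_inr]
        split_ifs
        · exact le_max_right _ _
        · exact le_rfl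
    have hkinl : ∀ v, k (Sum.inl v) = 0 := fun v => rfl
    have hkpos : ∀ e ∈ inside G S', (G.fst e ∈ B ∨ G.snd e ∈ B) → ∀ i, i ≤ m + 1 →
        k (G.pos m e i) = max (h (G.pos m e i) - c0) 0 := by
      intro e he heB i hi
      have hoth := hother e he heB
      rcases Nat.eq_zero_or_pos i with rfl | c1
      · rw [G.pos_zero, hval _ hoth.1, hkinl]
        simp
      · rcases Nat.lt_or_ge m i with c2 | c2
        · have c3 : i = m + 1 := by omega
          subst c3
          rw [G.pos_last, hval _ hoth.2, hkinl]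
          simp
        · rw [G.pos_interior e ⟨c1, c2⟩]
          simp only [hk, Sum.elim_inr]
          rw [if_pos ⟨he, heB⟩]
    have hkoff : ∀ e, ¬ (e ∈ inside G S' ∧ (G.fst e ∈ B ∨ G.snd e ∈ B)) → ∀ i, i ≤ m + 1 →
        k (G.pos m e i) = 0 := by
      intro e he i hi
      rcases Nat.eq_zero_or_pos i with rfl | c1
      · rw [G.pos_zero, hkinl]
      · rcases Nat.lt_or_ge m i with c2 | c2
        · have c3 : i = m + 1 := by omega
          subst c3
          rw [G.pos_last, hkinl]
        · rw [G.pos_interior e ⟨c1, c2⟩]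
          simp only [hk, Sum.elim_inr]
          rw [if_neg he]
    have hterm : ∀ (v : V) (e : E), ((if G.fst e = v then k (Sum.inl v) - k (G.pos m e 1) else 0) +
        (if G.snd e = v then k (Sum.inl v) - k (G.pos m e m) else 0)) ≤ 0 := by
      intro v e
      rw [hkinl]
      have c1 := hk0 (G.pos m e 1)
      have c2 := hk0 (G.pos m e m)
      split_ifs <;> linarith
    have hlinl : ∀ v, Γ.lapOn F' k (Sum.inl v) ≤ 0 := by
      intro v
      rw [hF', hΓ, subdiv_lapOn_inl]
      exact sum_nonpos fun e _ => hterm v e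
    have hfeas : ∀ p, 0 ≤ A0 p - Γ.lapOn F' k p := by
      intro p
      rcases p with v | ⟨e, j⟩
      · linarith [hlinl v, hA00 (Sum.inl v)]
      · have hj := j.2
        have c0' := hh (Sum.inr (e, j))
        rw [hF', hΓ, subdiv_lapOn_inr] at c0' ⊢
        by_cases he : e ∈ inside G S'
        · rw [if_pos he] at c0' ⊢
          rw [← G.pos_mid m e j] at c0' ⊢
          by_cases heB : G.fst e ∈ B ∨ G.snd e ∈ B
          · rw [hkpos e he heB _ (by omega), hkpos e he heB _ (by omega),
              hkpos e he heB _ (by omega)]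
            have d1 : h (G.pos m e j) - c0 ≤ max (h (G.pos m e j) - c0) 0 := le_max_left _ _
            have d2 : 0 ≤ max (h (G.pos m e j) - c0) 0 := le_max_right _ _
            have d3 : h (G.pos m e (j + 2)) - c0 ≤ max (h (G.pos m e (j + 2)) - c0) 0 :=
              le_max_left _ _
            have d4 : 0 ≤ max (h (G.pos m e (j + 2)) - c0) 0 := le_max_right _ _
            have d5 := hA00 (G.pos m e (j + 1))
            rcases le_total (h (G.pos m e (j + 1)) - c0) 0 with d6 | d6
            · rw [max_eq_right d6]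
              linarith
            · rw [max_eq_left d6]
              linarith
          · have hne : ¬ (e ∈ inside G S' ∧ (G.fst e ∈ B ∨ G.snd e ∈ B)) := fun c => heB c.2
            rw [hkoff e hne _ (by omega), hkoff e hne _ (by omega), hkoff e hne _ (by omega)]
            linarith [hA00 (G.pos m e (j + 1))]
        · rw [if_neg he]
          linarith [hA00 (Sum.inr (e, j))]
    have hzero : ∀ u ∈ S', Γ.lapOn F' k (Sum.inl u) = 0 := by
      have e1 := hmax k hfeas
      rw [sum_sub_distrib] at e1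
      have e2 : 0 ≤ ∑ u ∈ S', Γ.lapOn F' k (Sum.inl u) := by linarith
      have e3 : ∑ u ∈ S', Γ.lapOn F' k (Sum.inl u) ≤ 0 := sum_nonpos fun u _ => hlinl u
      have e4 := (sum_eq_zero_iff_of_nonpos (s := S')
        (f := fun u => Γ.lapOn F' k (Sum.inl u)) fun u _ => hlinl u).1 (le_antisymm e3 e2)
      exact e4
    intro e he heB
    obtain ⟨he1, he2⟩ := mem_inside.1 he
    constructor
    · have c1 := hzero _ he1
      rw [hF', hΓ, subdiv_lapOn_inl] at c1
      have c2 := (sum_eq_zero_iff_of_nonpos fun e' _ => hterm (G.fst e) e').1 c1 e he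
      have c3 := hk0 (G.pos m e 1)
      have c4 := hk0 (G.pos m e m)
      have c5 : k (G.pos m e 1) = 0 := by
        rw [hkinl, if_pos rfl] at c2
        split_ifs at c2 <;> linarith
      rw [hkpos e he heB 1 (by omega)] at c5
      have c6 : h (G.pos m e 1) - c0 ≤ max (h (G.pos m e 1) - c0) 0 := le_max_left _ _
      linarith
    · have c1 := hzero _ he2
      rw [hF', hΓ, subdiv_lapOn_inl] at c1
      have c2 := (sum_eq_zero_iff_of_nonpos fun e' _ => hterm (G.snd e) e').1 c1 e he
      have c3 := hk0 (G.pos m e 1)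
      have c4 := hk0 (G.pos m e m)
      have c5 : k (G.pos m e m) = 0 := by
        rw [hkinl, if_pos (rfl : G.snd e = G.snd e)] at c2
        split_ifs at c2 <;> linarith
      rw [hkpos e he heB m (by omega)] at c5
      have c6 : h (G.pos m e m) - c0 ≤ max (h (G.pos m e m) - c0) 0 := le_max_left _ _
      linarith
  -- the block is covered
  have hB1 : ∀ y ∈ B, 1 ≤ A0 (Sum.inl y) := by
    intro y hy
    obtain ⟨h, hh, hhy⟩ := hcov0 y (mem_union_right _ hy)
    have hst := hstar h hh
    have hrig := rigid (m := m) hx hd h1 h2 hA00 hh hdeg0 y hy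
    have c1 : 0 ≤ Γ.lapOn F' h (Sum.inl y) := by
      rw [hF', hΓ, subdiv_lapOn_inl]
      refine sum_nonneg fun e he => add_nonneg ?_ ?_
      · split_ifs with c
        · have := (hst e he (Or.inl (c ▸ hy))).1
          linarith
        · exact le_rfl
      · split_ifs with c
        · have := (hst e he (Or.inr (c ▸ hy))).2
          linarith
        · exact le_rfl
    linarith
  set A1 : V ⊕ E × Fin m → ℤ := Sum.elim (fun v => A0 (Sum.inl v) - if v ∈ B then 1 else 0)
    (fun a => A0 (Sum.inr a)) with hA1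
  have hA1sum : ∑ p, A1 p = ∑ p, A0 p - B.card := by
    rw [Fintype.sum_sum_type, Fintype.sum_sum_type]
    simp only [hA1, Sum.elim_inl, Sum.elim_inr, sum_sub_distrib]
    have : ∑ v, (if v ∈ B then (1 : ℤ) else 0) = B.card := sum_ind B
    rw [this]
    ring
  have hA10 : ∀ p, 0 ≤ A1 p := by
    intro p
    rcases p with v | a
    · simp only [hA1, Sum.elim_inl]
      split_ifs with c
      · linarith [hB1 v c]
      · linarith [hA00 (Sum.inl v)]
    · exact hA00 _
  have hsubin : inside G S ⊆ inside G S' := by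
    intro e he
    obtain ⟨c1, c2⟩ := mem_inside.1 he
    exact mem_inside.2 ⟨mem_union_left _ c1, mem_union_left _ c2⟩
  have hfin := hPhi A1 hA10 (fun u hu => by
    obtain ⟨h, hh, hhu⟩ := hcov0 u (mem_union_left _ hu)
    have hst := hstar h hh
    -- comparison of the two Laplacians
    have hcmp : ∀ v ∈ S, Γ.lapOn (inside G S ×ˢ univ) h (Sum.inl v) ≤ Γ.lapOn F' h (Sum.inl v) := by
      intro v hv
      rw [hF', hΓ, subdiv_lapOn_inl, subdiv_lapOn_inl]
      refine sum_le_sum_of_subset_of_nonneg hsubin fun e he henot => ?_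
      have hvB : v ∉ B := fun c => disjoint_left.1 hd hv c
      obtain ⟨c1, c2⟩ := mem_inside.1 he
      have heB : G.fst e ∈ B ∨ G.snd e ∈ B := by
        by_contra hcon
        push Not at hcon
        exact henot (mem_inside.2 ⟨(mem_union.1 c1).resolve_right hcon.1,
          (mem_union.1 c2).resolve_right hcon.2⟩)
      have hoth := hother e he heB
      have hs := hst e he heB
      refine add_nonneg ?_ ?_
      · split_ifs with c
        · have c3 : v = x := by
            rcases hoth.1 with c4 | c4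
            · rw [← c, c4]
            · exact absurd (c ▸ c4) hvB
          rw [c3]
          linarith [hs.1]
        · exact le_rfl
      · split_ifs with c
        · have c3 : v = x := by
            rcases hoth.2 with c4 | c4
            · rw [← c, c4]
            · exact absurd (c ▸ c4) hvB
          rw [c3]
          linarith [hs.2]
        · exact le_rfl
    have hout : ∀ v, v ∉ S → Γ.lapOn (inside G S ×ˢ univ) h (Sum.inl v) = 0 := by
      intro v hv
      rw [hΓ, subdiv_lapOn_inl]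
      refine sum_eq_zero fun e he => ?_
      obtain ⟨c1, c2⟩ := mem_inside.1 he
      have d1 : ¬ G.fst e = v := fun c => hv (c ▸ c1)
      have d2 : ¬ G.snd e = v := fun c => hv (c ▸ c2)
      rw [if_neg d1, if_neg d2]
      rfl
    refine ⟨h, fun p => ?_, ?_⟩
    · rcases p with v | ⟨e, j⟩
      · by_cases hv : v ∈ S
        · have hvB : v ∉ B := fun c => disjoint_left.1 hd hv c
          have c1 := hcmp v hv
          have c2 := hh (Sum.inl v)
          simp only [hA1, Sum.elim_inl, if_neg hvB]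
          linarith
        · rw [hout v hv]
          linarith [hA10 (Sum.inl v)]
      · have c1 := hh (Sum.inr (e, j))
        rw [hF', hΓ, subdiv_lapOn_inr] at c1
        rw [subdiv_lapOn_inr]
        by_cases he : e ∈ inside G S
        · rw [if_pos (hsubin he)] at c1
          rw [if_pos he]
          exact c1
        · rw [if_neg he]
          linarith [hA10 (Sum.inr (e, j))]
    · have huB : u ∉ B := fun c => disjoint_left.1 hd hu c
      have c1 := hcmp u hu
      simp only [hA1, Sum.elim_inl, if_neg huB]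
      linarith)
  rw [hA1sum, hA0deg] at hfin
  have hcard : ((S ∪ B).card : ℤ) = S.card + B.card := by
    rw [card_union_of_disjoint hd]
    push_cast
    ring
  rw [hcard] at hlt
  linarith

theorem phi_chain (m : ℕ) {S : Finset V} {x : V} (h : Chain G S x) : x ∈ S ∧ Phi G m S := by
  induction h with
  | base v => exact ⟨mem_singleton_self v, phi_base m v⟩
  | step B x' _ hd hx' h1 h2 h3 ih =>
    exact ⟨mem_union_right _ hx', phi_step ih.1 hd h1 h2 h3 ih.2⟩

end MGraph

end Pool.Agent.V11142.QB
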